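import Mathlib

/-!
# PRS84/Comb: the list bound (leftover hash lemma)
-/

set_option autoImplicit false

namespace PRS84

open Finset

open Classical in
theorem list_bound (U V : ℕ) (A : Finset ℕ) (h : ℕ → ℕ → ℕ) (hV : ∀ T < U, ∀ m ∈ A, h T m < V)
    (ρ : ℕ → ℕ → Prop)
    (hu : ∀ m ∈ A, ∀ m' ∈ A, m ≠ m' →
      V * ((range U).filter fun T => h T m = h T m').card ≤ U)
    (θ : ℝ) (hθ : 0 ≤ θ)
    (hA : ∀ m ∈ A, θ ≤ (V : ℝ) * ((range U).filter fun T => ρ T (h T m)).card -
      ((range U ×ˢ range V).filter fun x => ρ x.1 x.2).card) :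
    (A.card : ℝ) * θ ^ 2 ≤ (U : ℝ) ^ 2 * (V : ℝ) ^ 3 := by
  rcases Nat.eq_zero_or_pos A.card with h0 | hpos
  · rw [h0]; simp; positivity
  obtain ⟨r, hr⟩ : ∃ r : ℕ → ℕ → ℝ, ∀ T b, r T b = if ρ T b then 1 else 0 := ⟨_, fun _ _ => rfl⟩
  obtain ⟨N, hN⟩ : ∃ N : ℕ → ℕ → ℝ, ∀ T b, N T b = ∑ m ∈ A, if h T m = b then (1 : ℝ) else 0 :=
    ⟨_, fun _ _ => rfl⟩
  -- the sum over the list
  have hS : ∀ m ∈ A, (((range U).filter fun T => ρ T (h T m)).card : ℝ) =
      ∑ x ∈ range U ×ˢ range V, (if h x.1 m = x.2 then (1 : ℝ) else 0) * r x.1 x.2 := by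
    intro m hm
    rw [sum_product, card_filter, Nat.cast_sum]
    refine sum_congr rfl fun T hT => ?_
    rw [sum_eq_single (h T m)]
    · rw [if_pos rfl, one_mul, hr]
      push_cast
      rfl
    · intro b _ hb
      rw [if_neg (Ne.symm hb), zero_mul]
    · intro hn
      exact absurd (mem_range.mpr (hV T (mem_range.mp hT) m hm)) hn
  have hB : ((((range U ×ˢ range V).filter fun x => ρ x.1 x.2).card : ℕ) : ℝ) =
      ∑ x ∈ range U ×ˢ range V, r x.1 x.2 := by
    rw [card_filter, Nat.cast_sum]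
    refine sum_congr rfl fun x _ => ?_
    rw [hr]
    push_cast
    rfl
  have hX : ∑ m ∈ A, ((V : ℝ) * ((range U).filter fun T => ρ T (h T m)).card -
      ((range U ×ˢ range V).filter fun x => ρ x.1 x.2).card) =
      ∑ x ∈ range U ×ˢ range V, r x.1 x.2 * ((V : ℝ) * N x.1 x.2 - A.card) := by
    rw [hB]
    calc _ = ∑ m ∈ A, ((V : ℝ) * (∑ x ∈ range U ×ˢ range V,
          (if h x.1 m = x.2 then (1 : ℝ) else 0) * r x.1 x.2) -
          ∑ x ∈ range U ×ˢ range V, r x.1 x.2) :=
          sum_congr rfl fun m hm => by rw [hS m hm]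
      _ = (V : ℝ) * (∑ x ∈ range U ×ˢ range V, ∑ m ∈ A,
          (if h x.1 m = x.2 then (1 : ℝ) else 0) * r x.1 x.2) -
          A.card * ∑ x ∈ range U ×ˢ range V, r x.1 x.2 := by
        rw [sum_sub_distrib, ← mul_sum, sum_comm, sum_const, nsmul_eq_mul]
      _ = _ := by
        rw [mul_sum, mul_sum, ← sum_sub_distrib]
        refine sum_congr rfl fun x _ => ?_
        rw [← sum_mul, hN]
        ring
  have h1 : (A.card : ℝ) * θ ≤ ∑ x ∈ range U ×ˢ range V,
      r x.1 x.2 * ((V : ℝ) * N x.1 x.2 - A.card) := by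
    rw [← hX]
    calc (A.card : ℝ) * θ = ∑ m ∈ A, θ := by rw [sum_const, nsmul_eq_mul]
      _ ≤ _ := sum_le_sum hA
  -- Cauchy-Schwarz
  have h2 : (∑ x ∈ range U ×ˢ range V, r x.1 x.2 * ((V : ℝ) * N x.1 x.2 - A.card)) ^ 2 ≤
      (∑ x ∈ range U ×ˢ range V, (r x.1 x.2) ^ 2) *
      ∑ x ∈ range U ×ˢ range V, ((V : ℝ) * N x.1 x.2 - A.card) ^ 2 :=
    sum_mul_sq_le_sq_mul_sq _ _ _
  have h3 : ∑ x ∈ range U ×ˢ range V, (r x.1 x.2) ^ 2 ≤ (U : ℝ) * V := by
    calc _ ≤ ∑ x ∈ range U ×ˢ range V, (1 : ℝ) := sum_le_sum fun x _ => by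
          rw [hr]
          split_ifs <;> norm_num
      _ = _ := by
        rw [sum_const, nsmul_eq_mul, mul_one, card_product, card_range, card_range]
        push_cast
        rfl
  -- the sums of `N`
  have h4 : ∑ x ∈ range U ×ˢ range V, N x.1 x.2 = (U : ℝ) * A.card := by
    rw [sum_product]
    calc _ = ∑ T ∈ range U, (A.card : ℝ) := sum_congr rfl fun T hT => by
          calc _ = ∑ b ∈ range V, ∑ m ∈ A, (if h T m = b then (1 : ℝ) else 0) :=
                sum_congr rfl fun b _ => hN T b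
            _ = ∑ m ∈ A, ∑ b ∈ range V, (if h T m = b then (1 : ℝ) else 0) := sum_comm
            _ = ∑ m ∈ A, (1 : ℝ) := sum_congr rfl fun m hm => by
                rw [sum_ite_eq, if_pos (mem_range.mpr (hV T (mem_range.mp hT) m hm))]
            _ = _ := by rw [sum_const, nsmul_eq_mul, mul_one]
      _ = _ := by rw [sum_const, nsmul_eq_mul, card_range]
  have h5 : (V : ℝ) * ∑ x ∈ range U ×ˢ range V, (N x.1 x.2) ^ 2 ≤
      (V : ℝ) * U * A.card + U * ((A.card : ℝ) ^ 2 - A.card) := by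
    have e1 : ∑ x ∈ range U ×ˢ range V, (N x.1 x.2) ^ 2 =
        ∑ m ∈ A, ∑ m' ∈ A, (((range U).filter fun T => h T m = h T m').card : ℝ) := by
      rw [sum_product]
      calc _ = ∑ T ∈ range U, ∑ m ∈ A, ∑ m' ∈ A, (if h T m = h T m' then (1 : ℝ) else 0) := by
            refine sum_congr rfl fun T hT => ?_
            calc _ = ∑ b ∈ range V, ∑ m ∈ A, ∑ m' ∈ A, (if h T m = b then (1 : ℝ) else 0) *
                    (if h T m' = b then (1 : ℝ) else 0) := sum_congr rfl fun b _ => by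
                  rw [hN, sq, sum_mul_sum]
              _ = ∑ m ∈ A, ∑ b ∈ range V, ∑ m' ∈ A, (if h T m = b then (1 : ℝ) else 0) *
                    (if h T m' = b then (1 : ℝ) else 0) := sum_comm
              _ = ∑ m ∈ A, ∑ m' ∈ A, ∑ b ∈ range V, (if h T m = b then (1 : ℝ) else 0) *
                    (if h T m' = b then (1 : ℝ) else 0) := sum_congr rfl fun m _ => sum_comm
              _ = _ := by
                refine sum_congr rfl fun m hm => sum_congr rfl fun m' _ => ?_
                rw [sum_eq_single (h T m)]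
                · rw [if_pos rfl, one_mul]
                  refine if_congr ?_ rfl rfl
                  exact eq_comm
                · intro b _ hb
                  rw [if_neg (Ne.symm hb), zero_mul]
                · intro hn
                  exact absurd (mem_range.mpr (hV T (mem_range.mp hT) m hm)) hn
        _ = ∑ m ∈ A, ∑ T ∈ range U, ∑ m' ∈ A, (if h T m = h T m' then (1 : ℝ) else 0) := sum_comm
        _ = ∑ m ∈ A, ∑ m' ∈ A, ∑ T ∈ range U, (if h T m = h T m' then (1 : ℝ) else 0) :=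
          sum_congr rfl fun m _ => sum_comm
        _ = _ := by
          refine sum_congr rfl fun m _ => sum_congr rfl fun m' _ => ?_
          rw [card_filter]
          push_cast
          rfl
    rw [e1]
    calc _ = ∑ m ∈ A, ∑ m' ∈ A, ((V : ℝ) * ((range U).filter fun T => h T m = h T m').card) := by
          rw [mul_sum]
          exact sum_congr rfl fun m _ => mul_sum _ _ _
      _ ≤ ∑ m ∈ A, ∑ m' ∈ A, ((U : ℝ) + if m = m' then (V : ℝ) * U - U else 0) := by
          refine sum_le_sum fun m hm => sum_le_sum fun m' hm' => ?_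
          by_cases hmm : m = m'
          · subst hmm
            rw [if_pos rfl]
            simp
          · rw [if_neg hmm, add_zero]
            exact_mod_cast hu m hm m' hm' hmm
      _ = _ := by
          calc _ = ∑ m ∈ A, ((A.card : ℝ) * U + ((V : ℝ) * U - U)) := by
                refine sum_congr rfl fun m hm => ?_
                rw [sum_add_distrib, sum_const, nsmul_eq_mul, sum_ite_eq, if_pos hm]
            _ = _ := by
                rw [sum_const, nsmul_eq_mul]
                ring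
  have hVU : (0 : ℝ) ≤ (V : ℝ) * U := by positivity
  have h6 : ∑ x ∈ range U ×ˢ range V, ((V : ℝ) * N x.1 x.2 - A.card) ^ 2 ≤
      (V : ℝ) ^ 2 * U * A.card := by
    have e2 : ∑ x ∈ range U ×ˢ range V, ((V : ℝ) * N x.1 x.2 - A.card) ^ 2 =
        (V : ℝ) * ((V : ℝ) * ∑ x ∈ range U ×ˢ range V, (N x.1 x.2) ^ 2) -
          2 * V * A.card * ∑ x ∈ range U ×ˢ range V, N x.1 x.2 + U * V * (A.card : ℝ) ^ 2 := by
      calc _ = ∑ x ∈ range U ×ˢ range V, ((V : ℝ) ^ 2 * (N x.1 x.2) ^ 2 -
            2 * V * A.card * N x.1 x.2 + (A.card : ℝ) ^ 2) := sum_congr rfl fun x _ => by ring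
        _ = _ := by
          rw [sum_add_distrib, sum_sub_distrib, ← mul_sum, ← mul_sum, sum_const, nsmul_eq_mul,
            card_product, card_range, card_range]
          push_cast
          ring
    rw [e2, h4]
    have hV0 : (0 : ℝ) ≤ V := by positivity
    have := mul_le_mul_of_nonneg_left h5 hV0
    have hc : (1 : ℝ) ≤ A.card := by exact_mod_cast hpos
    have h7 : (0 : ℝ) ≤ V * U * A.card := by positivity
    nlinarith
  have hc : (0 : ℝ) < A.card := by exact_mod_cast hpos
  have h7 : ((A.card : ℝ) * θ) ^ 2 ≤ (U : ℝ) * V * ((V : ℝ) ^ 2 * U * A.card) := by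
    calc ((A.card : ℝ) * θ) ^ 2 ≤ (∑ x ∈ range U ×ˢ range V,
          r x.1 x.2 * ((V : ℝ) * N x.1 x.2 - A.card)) ^ 2 :=
          pow_le_pow_left₀ (by positivity) h1 2
      _ ≤ _ := h2.trans (mul_le_mul h3 h6 (sum_nonneg fun _ _ => sq_nonneg _) (by positivity))
  have h8 : (A.card : ℝ) * ((A.card : ℝ) * θ ^ 2) ≤ A.card * ((U : ℝ) ^ 2 * (V : ℝ) ^ 3) := by
    nlinarith
  exact le_of_mul_le_mul_left h8 hc

end PRS84
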