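import Pool.Agent.H85B.CoreJ

/-!
# PRS84/CoreP: the abstract theorem of `H85B/CoreJ` for one language

`coreP`: for every predicate `P` of the class `D` there are a constant `c` and a predicate `F` of the class `D`
such that `P` is in the class `C` as soon as the code words `(fam J c J s).enc (msgJ J F s)` are approximated in
the class `C` with linear advice. (Same proof as `coreJ`, without padding.)
-/

set_option autoImplicit false

namespace PRS84

open LSC LSA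

theorem coreP {C D : NClass} [Calc C] [Calc D] (hl : LocChk C D) {J : ℕ} (hJ : 2 ≤ J)
    (P : ℕ → Prop) (hP : Pr D P) : ∃ (c : ℕ) (F : ℕ × ℕ → Prop), Pr D F ∧
      ∀ (Q : ℕ × ℕ → Prop) (A : ℕ → ℕ) (c' s₂ : ℕ), Pr C Q →
        (∀ s, Nat.size (A s) ≤ c' * (s + 1) ^ J) →
        (∀ s ≥ s₂, Adv (fam J c J s).M (fam J c J s).lam (fun r => Q (2 ^ nJ J c s + r, A s))
          ((fam J c J s).enc (msgJ J F s))) → Pr C P := by
  classical
  obtain ⟨F, c₁, hF, hG⟩ := hl P hP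
  obtain ⟨c, hc⟩ : ∃ c, c = c₁ + 1 := ⟨_, rfl⟩
  refine ⟨c, F, hF, fun Q A c' s₂ hQ hA hav => ?_⟩
  obtain ⟨s₁, hs₁⟩ := fam_ok hJ c le_rfl
  obtain ⟨Cn, hCn⟩ := nJ_le hJ c
  obtain ⟨Cv, hCv⟩ := vb_le hJ c (j := J) le_rfl
  have hdfb := fam_dfb hJ c (j := J) le_rfl
  obtain ⟨W, hW⟩ : ∃ W, W = c' + Cv := ⟨_, rfl⟩
  -- the advice for a parameter
  have hadv : ∀ s, s₁ ≤ s → s₂ ≤ s → ∃ u < 2 ^ (2 * (W * (s + 1) ^ J)), ∀ y < 2 ^ (c * (s + 1) ^ J),
      ((fam J c J s).dec (fun r => Q (2 ^ nJ J c s + r, u % 2 ^ (W * (s + 1) ^ J)))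
        (u / 2 ^ (W * (s + 1) ^ J)) y ↔ msgJ J F s y) := by
    intro s hs1 hs2
    have e4 := hs₁ s hs1 _ _ (hav s hs2)
    have e5 : ∃ u' < (fam J c J s).V, ∀ y < 2 ^ (fam J c J s).K,
        ((fam J c J s).dec (fun r => Q (2 ^ nJ J c s + r, A s)) u' y ↔ msgJ J F s y) := by
      have h1 := V_pos J c J s
      by_contra hcon
      push Not at hcon
      rw [Finset.filter_false_of_mem, Finset.card_empty, mul_zero] at e4
      · omega
      · intro u' hu' h2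
        obtain ⟨y, hy, h3⟩ := hcon u' (Finset.mem_range.mp hu')
        have h4 := h2 y hy
        tauto
    obtain ⟨u', hu', e6⟩ := e5
    rw [K_eq hJ] at e6
    -- sizes
    obtain ⟨X, hX⟩ : ∃ X, X = 2 ^ (W * (s + 1) ^ J) := ⟨_, rfl⟩
    have hX1 : ∀ m, m ≤ W * (s + 1) ^ J → 2 ^ m ≤ X := fun m hm => by
      rw [hX]
      exact Nat.pow_le_pow_right (by norm_num) hm
    have b1 : A s < X := by
      refine (Nat.lt_size_self _).trans_le (hX1 _ ((hA s).trans ?_))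
      exact Nat.mul_le_mul_right _ (by omega)
    have b3 : u' < X := by
      refine hu'.trans_le ((V_le J c J s).trans (hX1 _ ((hCv s).trans (Nat.mul_le_mul_right _ ?_))))
      omega
    have hX0 : 0 < X := by omega
    refine ⟨A s + X * u', ?_, ?_⟩
    · have : 2 ^ (2 * (W * (s + 1) ^ J)) = X * X := by
        rw [hX, ← pow_add]
        congr 1
        ring
      rw [this]
      have : X * (u' + 1) ≤ X * X := Nat.mul_le_mul_left _ b3
      rw [Nat.mul_add, mul_one] at this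
      omega
    · intro y hy
      rw [← hX]
      have f1 : (A s + X * u') % X = A s := by
        rw [Nat.add_mul_mod_self_left, Nat.mod_eq_of_lt b1]
      have f2 : (A s + X * u') / X = u' := by
        rw [Nat.add_mul_div_left _ _ hX0, Nat.div_eq_of_lt b1, zero_add]
      rw [f2, f1]
      exact e6 y hy
  -- definability
  have hsC : ∀ {α : Type} [Ctx α] {a : α → ℕ}, Fn C a → Fn C (fun q => sj J (a q)) :=
    fun ha => (fn_sj J).comp ha
  have hLin : ∀ {α : Type} [Ctx α] {a : α → ℕ}, Fn C a → Lin J (fun q => sj J (a q)) := by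
    intro α _ a ha
    refine Lin.comp (C := C) (s := sj J) ⟨2 ^ J, fun x => ?_⟩ ha
    rw [sz_nat]
    exact sj_le x
  have hpow : ∀ {α : Type} [Ctx α] {a : α → ℕ} (w : ℕ), Fn C a →
      Fn C (fun q => 2 ^ (w * (sj J (a q) + 1) ^ J)) := by
    intro α _ a w ha
    obtain ⟨c, hc⟩ := hLin ha
    refine Fn.pow2 ?_ (w * c) fun q => ?_
    · exact Fn.mul (by fun_prop) (Fn.npow (Fn.add (hsC ha) (by fun_prop)) J)
    · rw [mul_assoc]
      exact Nat.mul_le_mul_left _ (hc q)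
  have hpown : ∀ {α : Type} [Ctx α] {a : α → ℕ}, Fn C a →
      Fn C (fun q => 2 ^ nJ J c (sj J (a q))) := by
    intro α _ a ha
    obtain ⟨c, hc⟩ := hLin ha
    refine Fn.pow2 ((fn_nJ hJ _ C).comp (hsC ha)) (Cn * c) fun q => ?_
    rw [mul_assoc]
    exact (hCn _).trans (Nat.mul_le_mul_left _ (hc q))
  have hGC : Pr C (fun q : ℕ × ℕ × ℕ => (fam J c J (sj J q.2.1)).dec
      (fun r => Q (2 ^ nJ J c (sj J q.2.1) + r, q.1 % 2 ^ (W * (sj J q.2.1 + 1) ^ J)))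
      (q.1 / 2 ^ (W * (sj J q.2.1 + 1) ^ J))
      (q.2.1 + 2 ^ (1 * (sj J q.2.1 + 1) ^ J) * q.2.2)) := by
    have g1 : Fn C (fun q : ℕ × ℕ × ℕ => q.2.1) := by fun_prop
    have g2 := hpow W g1
    have g3 := hpow 1 g1
    refine hdfb.dec C (ℕ × ℕ × ℕ) (fun q => sj J q.2.1)
      (fun q => q.1 / 2 ^ (W * (sj J q.2.1 + 1) ^ J))
      (fun q => q.2.1 + 2 ^ (1 * (sj J q.2.1 + 1) ^ J) * q.2.2)
      (fun q r => Q (2 ^ nJ J c (sj J q.2.1) + r, q.1 % 2 ^ (W * (sj J q.2.1 + 1) ^ J)))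
      (hsC g1) (hLin g1) (by fun_prop) (by fun_prop) ?_
    have k1 : Fn C (fun q : (ℕ × ℕ × ℕ) × ℕ => q.1.2.1) := by fun_prop
    have k2 := hpow W k1
    have k3 := hpown k1
    exact hQ.comp (f := fun q : (ℕ × ℕ × ℕ) × ℕ =>
      (2 ^ nJ J c (sj J q.1.2.1) + q.2, q.1.1 % 2 ^ (W * (sj J q.1.2.1 + 1) ^ J))) (by fun_prop)
  obtain ⟨ok, out, hok, hout, h1, h2⟩ := hG _ hGC
  have hJ1 : 1 ≤ J := by omega
  have hgood : ∀ a, s₁ ≤ sj J a → s₂ ≤ sj J a →
      ∃ u < 2 ^ (2 * (W * (sj J a + 1) ^ J)), ok (u, a) := by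
    intro a ha1 ha2
    obtain ⟨u, hu, hu2⟩ := hadv (sj J a) ha1 ha2
    refine ⟨u, hu, h2 _ _ fun t ht => ?_⟩
    show (fam J c J (sj J a)).dec (fun r => Q (2 ^ nJ J c (sj J a) + r,
          u % 2 ^ (W * (sj J a + 1) ^ J)))
      (u / 2 ^ (W * (sj J a + 1) ^ J))
      (a + 2 ^ (1 * (sj J a + 1) ^ J) * t) ↔ F (a, t)
    have h3 := sj_spec hJ1 a
    have ha : a < 2 ^ (sj J a + 1) ^ J :=
      (Nat.lt_size_self a).trans_le (Nat.pow_le_pow_right (by norm_num) (by omega))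
    have ht' : t < 2 ^ (c₁ * (sj J a + 1) ^ J) :=
      ht.trans_le (Nat.pow_le_pow_right (by norm_num) (Nat.mul_le_mul_left _ h3))
    rw [one_mul]
    have hy : a + 2 ^ (sj J a + 1) ^ J * t < 2 ^ (c * (sj J a + 1) ^ J) := by
      have h5 : 2 ^ (sj J a + 1) ^ J * (t + 1) ≤
          2 ^ (sj J a + 1) ^ J * 2 ^ (c₁ * (sj J a + 1) ^ J) := Nat.mul_le_mul_left _ ht'
      rw [← pow_add, Nat.mul_add, mul_one] at h5
      have h6 : (sj J a + 1) ^ J + c₁ * (sj J a + 1) ^ J = c * (sj J a + 1) ^ J := by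
        rw [hc]
        ring
      rw [h6] at h5
      omega
    rw [hu2 _ hy, msgJ_iff, Nat.add_mul_mod_self_left, Nat.mod_eq_of_lt ha,
      Nat.add_mul_div_left _ _ (by positivity), Nat.div_eq_of_lt ha, zero_add]
  -- the search for the advice
  obtain ⟨s₀, hs₀⟩ : ∃ s₀, s₀ = max s₁ s₂ := ⟨_, rfl⟩
  have key : ∀ a, P a ↔ (sj J a < s₀ ∧ ∃ i : Fin (2 ^ (s₀ + 1) ^ J), P i ∧ a = i) ∨
      (s₀ ≤ sj J a ∧ ∃ u < 2 ^ (2 * W * (sj J a + 1) ^ J), ok (u, a) ∧ out (u, a)) := by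
    intro a
    constructor
    · intro hPa
      rcases Nat.lt_or_ge (sj J a) s₀ with h3 | h3
      · left
        refine ⟨h3, ⟨a, ?_⟩, hPa, rfl⟩
        have h4 := sj_spec hJ1 a
        have h5 : (sj J a + 1) ^ J ≤ (s₀ + 1) ^ J := Nat.pow_le_pow_left (by omega) _
        exact (Nat.lt_size_self a).trans_le (Nat.pow_le_pow_right (by norm_num) (by omega))
      · right
        obtain ⟨u, hu, hu2⟩ := hgood a (by omega) (by omega)
        refine ⟨h3, u, ?_, hu2, (h1 _ _ hu2).2 hPa⟩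
        rw [mul_assoc]
        exact hu
    · rintro (⟨-, i, hi, rfl⟩ | ⟨-, u, -, h3, h4⟩)
      · exact hi
      · exact (h1 _ _ h3).1 h4
  refine Pr.congr ?_ key
  have g0 : Fn C (fun a : ℕ => a) := by fun_prop
  have g1 := hsC g0
  refine Pr.or (Pr.and (Pr.lt g1 (by fun_prop)) ?_) (Pr.and (Pr.le (by fun_prop) g1) ?_)
  · exact Pr_finex fun i => (Pr.const _).and (by fun_prop)
  · refine Pr.ex (n := fun a => 2 ^ (2 * W * (sj J a + 1) ^ J))
      (p := fun a u => ok (u, a) ∧ out (u, a)) (hpow _ g0) ?_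
    exact (hok.comp (f := fun p : ℕ × ℕ => (p.2, p.1)) (by fun_prop)).and
      (hout.comp (f := fun p : ℕ × ℕ => (p.2, p.1)) (by fun_prop))

end PRS84
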