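import Pool.Agent.PRS84.Dfn

/-!
# PRS84/Defs: pseudorandom sets of words (as numbers)

A word of length `n` is a number in `[2 ^ n, 2 ^ (n + 1))`. `cnt n p`: the number of the words of length `n` with
`p`. `Dst n e P Q`: the density of `Q` inside `P` and the density of `Q` differ by at least `2 ^ (- e)` (among the
words of length `n`). `PRL l C D`: every set `P` of the class `D` with at least one and at most `2 ^ (n - l n)` words
of each length `n` is distinguished by a set of the class `C` with linear advice, with the advantage `2 ^ (- l n)`,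
for all large `n`.
-/

set_option autoImplicit false

namespace PRS84

open Finset LSC LSA

open Classical in
/-- the number of the words of length `n` with `p` -/
noncomputable def cnt (n : ℕ) (p : ℕ → Prop) : ℕ := ((range (2 ^ n)).filter fun x => p (2 ^ n + x)).card

/-- `Q` distinguishes `P` from all words of length `n` with the advantage `2 ^ (- e)` -/
def Dst (n e : ℕ) (P Q : ℕ → Prop) : Prop :=
  (2 : ℤ) ^ n * cnt n P ≤ 2 ^ e * |2 ^ n * (cnt n (fun x => P x ∧ Q x) : ℤ) - cnt n P * cnt n Q|

/-- no small set of the class `D` is pseudorandom for the class `C` with linear advice -/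
def PRL (l : ℕ → ℕ) (C D : NClass) : Prop := ∀ P : ℕ → Prop, Pr D P →
  (∀ n, 0 < cnt n P ∧ 2 ^ l n * cnt n P ≤ 2 ^ n) →
    ∃ (Q : ℕ × ℕ → Prop) (A : ℕ → ℕ) (c n0 : ℕ), Pr C Q ∧ (∀ n, Nat.size (A n) ≤ c * (n + 1)) ∧
      ∀ n ≥ n0, Dst n (l n) P (fun x => Q (x, A n))

end PRS84
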