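import Pool.Agent.PRS84.Half
import Pool.Agent.H85B.FnHad

/-!
# PRS84/Dfn: definability
-/

set_option autoImplicit false

namespace PRS84

open Finset LSC LSA

variable {C : NClass} [Calc C] {α : Type} [Ctx α]

protected theorem Fn.shr {f g : α → ℕ} (hf : Fn C f) (hg : Fn C g) :
    Fn C (fun a => f a / 2 ^ g a) := by
  have h0 := fn_cpow (C := C)
  have h1 : Fn C (fun p : ℕ × ℕ => p.1 / min (2 ^ p.2) (p.1 + 1)) := by fun_prop
  have h : Fn C (fun p : ℕ × ℕ => p.1 / 2 ^ p.2) := h1.congr fun p => by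
    obtain ⟨n, j⟩ := p
    simp only
    by_cases hj : 2 ^ j ≤ n + 1
    · rw [min_eq_left hj]
    · rw [min_eq_right (by omega), Nat.div_eq_of_lt (by omega), Nat.div_eq_of_lt (by omega)]
  exact h.comp (f := fun a => (f a, g a)) (hf.pair hg)

protected theorem Fn.hsh {n l T : α → ℕ} {f : α → ℕ → Prop} (hn : Fn C n) (hnl : Ll n)
    (hl : Fn C l) (hT : Fn C T) (hf : Pr C (fun q : α × ℕ => f q.1 q.2)) :
    Fn C (fun a => hsh (n a) (l a) (T a) (f a)) := by
  obtain ⟨c, hc⟩ := hnl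
  unfold hsh
  refine Fn.ofBits hn hc ?_
  refine Pr.hde (α := α × ℕ) (l := fun q => l q.1) (r := fun q => T q.1 / 2 ^ q.2)
    (f := fun q => f q.1) (hl.comp Fn.fst) ?_ ?_
  · exact Fn.shr (f := fun q : α × ℕ => T q.1) (g := fun q => q.2) (hT.comp Fn.fst) Fn.snd
  · exact hf.comp (f := fun q : (α × ℕ) × ℕ => (q.1.1, q.2))
      ((Fn.fst.comp Fn.fst).pair Fn.snd)

protected theorem Fn.hit {U : α → ℕ} {R : α → ℕ → ℕ → Prop} {g : α → ℕ → ℕ} (hU : Fn C U)
    (hR : Pr C (fun q : α × ℕ × ℕ => R q.1 q.2.1 q.2.2)) (hg : Fn C (fun q : α × ℕ => g q.1 q.2)) :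
    Fn C (fun a => hit (U a) (R a) (g a)) := by
  classical
  have h1 := Fn.count (p := fun a T => R a T (g a T)) hU
    (hR.comp (f := fun q : α × ℕ => (q.1, q.2, g q.1 q.2))
      (Fn.fst.pair (Fn.snd.pair hg)))
  refine h1.congr fun a => ?_
  unfold PRS84.hit
  exact cardf_eq _ _ fun _ _ => Iff.rfl

protected theorem Fn.tot {U V : α → ℕ} {R : α → ℕ → ℕ → Prop} (hU : Fn C U) (hV : Fn C V)
    (hR : Pr C (fun q : α × ℕ × ℕ => R q.1 q.2.1 q.2.2)) :
    Fn C (fun a => tot (U a) (V a) (R a)) := by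
  classical
  have h1 := Fn.count (p := fun a x => R a (x % U a) (x / U a)) (hU.mul hV)
    (hR.comp (f := fun q : α × ℕ => (q.1, q.2 % U q.1, q.2 / U q.1))
      (Fn.fst.pair ((Fn.snd.mod (hU.comp Fn.fst)).pair (Fn.snd.div (hU.comp Fn.fst)))))
  refine h1.congr fun a => ?_
  unfold PRS84.tot
  exact cardf_eq _ _ fun _ _ => Iff.rfl

protected theorem Pr.Big {U V E : α → ℕ} {R : α → ℕ → ℕ → Prop} {g : α → ℕ → ℕ} (hU : Fn C U)
    (hV : Fn C V) (hE : Fn C E)
    (hR : Pr C (fun q : α × ℕ × ℕ => R q.1 q.2.1 q.2.2)) (hg : Fn C (fun q : α × ℕ => g q.1 q.2)) :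
    Pr C (fun a => Big (U a) (V a) (E a) (R a) (g a)) := by
  unfold PRS84.Big
  exact Pr.le (hU.mul hV) (hE.mul ((hV.mul (Fn.hit hU hR hg)).sub (Fn.tot hU hV hR)))

/-- the hash values of the messages given by numbers -/
noncomputable def hn (n l T m : ℕ) : ℕ := hsh n l T fun i => bt m i = 1

/-- the bit `y` of the message in the list with the rank `i` -/
def gss (U V E n l : ℕ) (R : ℕ → ℕ → Prop) (i y : ℕ) : Prop :=
  ∃ m < 2 ^ l, (Big U V E R fun T => hn n l T m) ∧ rk U V E R (fun T m => hn n l T m) m = i ∧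
    bt m y = 1

protected theorem Pr.gss {U V E n l i y : α → ℕ} {R : α → ℕ → ℕ → Prop} (hU : Fn C U)
    (hV : Fn C V) (hE : Fn C E) (hn : Fn C n) (hnl : Ll n) (hl : Fn C l) (hll : Ll l)
    (hi : Fn C i) (hy : Fn C y)
    (hR : Pr C (fun q : α × ℕ × ℕ => R q.1 q.2.1 q.2.2)) :
    Pr C (fun a => gss (U a) (V a) (E a) (n a) (l a) (R a) (i a) (y a)) := by
  classical
  have key : ∀ (β : Type) [Ctx β] (g : β → α) (m : β → ℕ), Fn C g → Fn C m →
      Pr C (fun b => Big (U (g b)) (V (g b)) (E (g b)) (R (g b))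
        fun T => PRS84.hn (n (g b)) (l (g b)) T (m b)) := by
    intro β _ g m hg hm
    refine Pr.Big (α := β) (U := fun b => U (g b)) (V := fun b => V (g b)) (E := fun b => E (g b))
      (R := fun b => R (g b)) (g := fun b T => PRS84.hn (n (g b)) (l (g b)) T (m b))
      (hU.comp hg) (hV.comp hg) (hE.comp hg) ?_ ?_
    · exact hR.comp (f := fun q : β × ℕ × ℕ => (g q.1, q.2.1, q.2.2))
        ((hg.comp Fn.fst).pair ((Fn.fst.comp Fn.snd).pair (Fn.snd.comp Fn.snd)))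
    · unfold PRS84.hn
      refine Fn.hsh (α := β × ℕ) (n := fun q => n (g q.1)) (l := fun q => l (g q.1))
        (T := fun q => q.2) (f := fun q i => bt (m q.1) i = 1) (hn.comp (hg.comp Fn.fst))
        (hnl.comp (hg.comp Fn.fst)) (hl.comp (hg.comp Fn.fst)) Fn.snd ?_
      exact Pr.eq (Fn.bt (hm.comp (Fn.fst.comp Fn.fst)) Fn.snd) (Fn.const 1)
  unfold PRS84.gss
  refine Pr.ex (Fn.two_powL hl hll) ?_
  refine Pr.and (key (α × ℕ) (fun q => q.1) (fun q => q.2) Fn.fst Fn.snd) (Pr.and ?_ ?_)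
  · refine Pr.eq ?_ (hi.comp Fn.fst)
    have h1 := Fn.count (α := α × ℕ) (n := fun q => q.2)
      (p := fun q m' => Big (U q.1) (V q.1) (E q.1) (R q.1)
        fun T => PRS84.hn (n q.1) (l q.1) T m') Fn.snd
      (key ((α × ℕ) × ℕ) (fun q => q.1.1) (fun q => q.2) (Fn.fst.comp Fn.fst) Fn.snd)
    refine h1.congr fun a => ?_
    unfold rk
    exact cardf_eq _ _ fun _ _ => Iff.rfl
  · exact Pr.eq (Fn.bt Fn.snd (hy.comp Fn.fst)) (Fn.const 1)

end PRS84
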