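import Pool.Agent.PRS84.Comb

/-!
# PRS84/Guess: from a distinguisher to a guess with an advice
-/

set_option autoImplicit false

namespace PRS84

open Finset

open Classical in
/-- the number of the `T < U` for which the test accepts `(T, g T)` -/
noncomputable def hit (U : ℕ) (R : ℕ → ℕ → Prop) (g : ℕ → ℕ) : ℕ :=
  ((range U).filter fun T => R T (g T)).card

open Classical in
/-- the number of all pairs `(T, b)`, `T < U`, `b < V`, which the test accepts -/
noncomputable def tot (U V : ℕ) (R : ℕ → ℕ → Prop) : ℕ :=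
  ((range (U * V)).filter fun x => R (x % U) (x / U)).card

/-- the test accepts the pairs `(T, g T)` with a frequency which is larger than that of all pairs by at
least `1 / E` -/
def Big (U V E : ℕ) (R : ℕ → ℕ → Prop) (g : ℕ → ℕ) : Prop :=
  U * V ≤ E * (V * hit U R g - tot U V R)

open Classical in
/-- the number of the `m' < m` with `Big` -/
noncomputable def rk (U V E : ℕ) (R : ℕ → ℕ → Prop) (h : ℕ → ℕ → ℕ) (m : ℕ) : ℕ :=
  ((range m).filter fun m' => Big U V E R fun T => h T m').card

theorem tot_eq (U V : ℕ) (hU : 0 < U) (R : ℕ → ℕ → Prop) [DecidablePred fun x : ℕ × ℕ => R x.1 x.2] :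
    tot U V R = ((range U ×ˢ range V).filter fun x => R x.1 x.2).card := by
  classical
  unfold tot
  refine card_bij' (fun x _ => (x % U, x / U)) (fun x _ => x.1 + U * x.2) ?_ ?_ ?_ ?_
  · intro x hx
    rw [mem_filter, mem_range] at hx
    rw [mem_filter, mem_product, mem_range, mem_range]
    exact ⟨⟨Nat.mod_lt _ hU, Nat.div_lt_of_lt_mul hx.1⟩, hx.2⟩
  · rintro ⟨T, b⟩ hx
    rw [mem_filter, mem_product, mem_range, mem_range] at hx
    obtain ⟨⟨h1, h2⟩, h3⟩ := hx
    simp only at h1 h2 h3 ⊢
    rw [mem_filter, mem_range, Nat.add_mul_mod_self_left, Nat.mod_eq_of_lt h1,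
      Nat.add_mul_div_left _ _ hU, Nat.div_eq_of_lt h1, zero_add]
    refine ⟨?_, h3⟩
    calc T + U * b < U + U * b := by omega
      _ = U * (b + 1) := by ring
      _ ≤ U * V := Nat.mul_le_mul_left _ h2
  · intro x _
    exact Nat.mod_add_div x U
  · rintro ⟨T, b⟩ hx
    rw [mem_filter, mem_product, mem_range, mem_range] at hx
    obtain ⟨⟨h1, h2⟩, h3⟩ := hx
    simp only at h1 h2 h3 ⊢
    rw [Nat.add_mul_mod_self_left, Nat.mod_eq_of_lt h1, Nat.add_mul_div_left _ _ hU,
      Nat.div_eq_of_lt h1, zero_add]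

theorem hit_le (U : ℕ) (R : ℕ → ℕ → Prop) (g : ℕ → ℕ) : hit U R g ≤ U := by
  classical
  unfold hit
  exact (card_filter_le _ _).trans (card_range U).le

open Classical in
/-- the list of the `m < W` with `Big` is short -/
theorem big_card (U V E W : ℕ) (hU : 0 < U) (hV : 0 < V) (h : ℕ → ℕ → ℕ)
    (hhV : ∀ T < U, ∀ m < W, h T m < V)
    (hu : ∀ m < W, ∀ m' < W, m ≠ m' → V * ((range U).filter fun T => h T m = h T m').card ≤ U)
    (R : ℕ → ℕ → Prop) :
    ((range W).filter fun m => Big U V E R fun T => h T m).card ≤ V * E ^ 2 := by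
  obtain ⟨A, hA⟩ : ∃ A, A = (range W).filter fun m => Big U V E R fun T => h T m := ⟨_, rfl⟩
  rw [← hA]
  have hAW : ∀ m ∈ A, m < W := fun m hm => by
    rw [hA, mem_filter, mem_range] at hm
    exact hm.1
  rcases A.eq_empty_or_nonempty with h0 | ⟨m0, hm0⟩
  · rw [h0, card_empty]
    exact Nat.zero_le _
  have hbig : ∀ m ∈ A, Big U V E R fun T => h T m := fun m hm => by
    rw [hA, mem_filter] at hm
    exact hm.2
  have hE : 0 < E := by
    rcases Nat.eq_zero_or_pos E with h1 | h1
    · have := hbig m0 hm0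
      unfold Big at this
      rw [h1, zero_mul] at this
      have := Nat.mul_pos hU hV
      omega
    · exact h1
  have hER : (0 : ℝ) < E := by exact_mod_cast hE
  have hUR : (0 : ℝ) < U := by exact_mod_cast hU
  have hVR : (0 : ℝ) < V := by exact_mod_cast hV
  have key := list_bound U V A h (fun T hT m hm => hhV T hT m (hAW m hm)) R
    (fun m hm m' hm' hne => hu m (hAW m hm) m' (hAW m' hm') hne) ((U : ℝ) * V / E) (by positivity)
    fun m hm => by
      have h1 := hbig m hm
      unfold Big at h1
      have h2 : tot U V R ≤ V * hit U R fun T => h T m := by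
        by_contra hcon
        push Not at hcon
        rw [Nat.sub_eq_zero_of_le hcon.le, mul_zero] at h1
        have := Nat.mul_pos hU hV
        omega
      have h3 : (U : ℝ) * V ≤ E * ((V : ℝ) * hit U R (fun T => h T m) - tot U V R) := by
        have : ((U * V : ℕ) : ℝ) ≤ ((E * (V * hit U R (fun T => h T m) - tot U V R) : ℕ) : ℝ) := by
          exact_mod_cast h1
        rw [Nat.cast_mul, Nat.cast_mul, Nat.cast_sub h2] at this
        push_cast at this
        exact this
      rw [div_le_iff₀ hER]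
      rw [tot_eq U V hU R] at h3
      unfold hit at h3
      linarith
  have h4 : (A.card : ℝ) * ((U : ℝ) * V) ^ 2 ≤ (U : ℝ) ^ 2 * (V : ℝ) ^ 3 * E ^ 2 := by
    rw [div_pow, ← mul_div_assoc, div_le_iff₀ (by positivity)] at key
    exact key
  have h5 : (A.card : ℝ) ≤ V * E ^ 2 := by
    have h6 : (0 : ℝ) < ((U : ℝ) * V) ^ 2 := by positivity
    have h7 : (A.card : ℝ) * ((U : ℝ) * V) ^ 2 ≤ (V * E ^ 2) * ((U : ℝ) * V) ^ 2 := by
      calc _ ≤ _ := h4
        _ = _ := by ring
    exact le_of_mul_le_mul_right h7 h6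
  exact_mod_cast h5

open Classical in
theorem guess (Z U V E W : ℕ) (hU : 0 < U) (hV : 0 < V) (hE : 0 < E) (h : ℕ → ℕ → ℕ)
    (hhV : ∀ T < U, ∀ m < W, h T m < V)
    (hu : ∀ m < W, ∀ m' < W, m ≠ m' → V * ((range U).filter fun T => h T m = h T m').card ≤ U)
    (R : ℕ → ℕ → ℕ → Prop) (F : ℕ → ℕ) (hF : ∀ z < Z, F z < W)
    (hd : Z * (U * V) ≤ E * (V * (∑ z ∈ range Z, hit U (R z) fun T => h T (F z)) -
      ∑ z ∈ range Z, tot U V (R z))) :
    ∃ i < V * (2 * E) ^ 2, Z ≤ 2 * E * (V * (2 * E) ^ 2) * ((range Z).filter fun z =>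
      ∀ m, (m < W ∧ (Big U V (2 * E) (R z) fun T => h T m) ∧ rk U V (2 * E) (R z) h m = i) ↔
        m = F z).card := by
  have hI : 0 < V * (2 * E) ^ 2 := by positivity
  rcases Nat.eq_zero_or_pos Z with hZ | hZ
  · exact ⟨0, hI, by rw [hZ]; exact Nat.zero_le _⟩
  obtain ⟨G, hG⟩ : ∃ G, G = (range Z).filter fun z => Big U V (2 * E) (R z) fun T => h T (F z) :=
    ⟨_, rfl⟩
  have hGm : ∀ z, z ∈ G ↔ z < Z ∧ Big U V (2 * E) (R z) fun T => h T (F z) := fun z => by
    rw [hG, mem_filter, mem_range]
  have hUR : (0 : ℝ) < U := by exact_mod_cast hU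
  have hVR : (0 : ℝ) < V := by exact_mod_cast hV
  have hER : (0 : ℝ) < E := by exact_mod_cast hE
  have hZR : (0 : ℝ) < Z := by exact_mod_cast hZ
  -- many good `z`
  have h1 : Z ≤ 2 * E * G.card := by
    have e1 : ∑ z ∈ range Z, tot U V (R z) ≤ V * ∑ z ∈ range Z, hit U (R z) fun T => h T (F z) := by
      by_contra hcon
      push Not at hcon
      rw [Nat.sub_eq_zero_of_le hcon.le, mul_zero] at hd
      have := Nat.mul_pos hZ (Nat.mul_pos hU hV)
      omega
    have e2 : (Z : ℝ) * (U * V) ≤ E * ∑ z ∈ range Z,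
        ((V : ℝ) * hit U (R z) (fun T => h T (F z)) - tot U V (R z)) := by
      have : ((Z * (U * V) : ℕ) : ℝ) ≤ ((E * (V * (∑ z ∈ range Z, hit U (R z) fun T => h T (F z)) -
        ∑ z ∈ range Z, tot U V (R z)) : ℕ) : ℝ) := by exact_mod_cast hd
      rw [Nat.cast_mul, Nat.cast_mul E, Nat.cast_sub e1] at this
      push_cast at this
      rw [sum_sub_distrib, ← mul_sum]
      exact this
    have e3 : ∀ z ∈ range Z, (V : ℝ) * hit U (R z) (fun T => h T (F z)) - tot U V (R z) ≤
        (if Big U V (2 * E) (R z) (fun T => h T (F z)) then (U : ℝ) * V else 0) +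
          (U : ℝ) * V / (2 * E) := by
      intro z _
      split_ifs with hb
      · have e4 : (hit U (R z) (fun T => h T (F z)) : ℝ) ≤ U := by exact_mod_cast hit_le _ _ _
        have e5 : (0 : ℝ) ≤ (tot U V (R z) : ℝ) := by positivity
        have e6 : (0 : ℝ) ≤ (U : ℝ) * V / (2 * E) := by positivity
        nlinarith
      · rw [zero_add, le_div_iff₀ (by positivity)]
        unfold Big at hb
        push Not at hb
        rcases le_total (tot U V (R z)) (V * hit U (R z) fun T => h T (F z)) with h7 | h7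
        · have : ((2 * E * (V * hit U (R z) (fun T => h T (F z)) - tot U V (R z)) : ℕ) : ℝ) ≤
            ((U * V : ℕ) : ℝ) := by exact_mod_cast hb.le
          rw [Nat.cast_mul, Nat.cast_sub h7] at this
          push_cast at this
          linarith
        · have h8 : ((V : ℝ) * hit U (R z) (fun T => h T (F z))) ≤ tot U V (R z) := by
            exact_mod_cast h7
          have h9 : (0 : ℝ) ≤ (U : ℝ) * V := by positivity
          nlinarith
    have e7 := sum_le_sum e3
    rw [sum_add_distrib, ← sum_filter, sum_const, sum_const, nsmul_eq_mul, nsmul_eq_mul,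
      card_range, ← hG] at e7
    have e8 : (Z : ℝ) * (U * V) ≤ E * (G.card * (U * V) + Z * (U * V / (2 * E))) :=
      e2.trans (mul_le_mul_of_nonneg_left e7 hER.le)
    have e9 : (E : ℝ) * (Z * (U * V / (2 * E))) = Z * (U * V) / 2 := by
      field_simp
    have e10 : (Z : ℝ) * (U * V) ≤ (2 * E * G.card) * (U * V) := by
      rw [mul_add, e9] at e8
      linarith
    have e11 : (Z : ℝ) ≤ 2 * E * G.card := le_of_mul_le_mul_right e10 (by positivity)
    exact_mod_cast e11
  -- the ranks
  have h2 : ∀ z ∈ G, rk U V (2 * E) (R z) h (F z) < V * (2 * E) ^ 2 := by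
    intro z hz
    have hz' := (hGm z).mp hz
    refine lt_of_lt_of_le ?_ (big_card U V (2 * E) W hU hV h hhV hu (R z))
    unfold rk
    refine card_lt_card ?_
    rw [ssubset_iff_of_subset]
    · exact ⟨F z, by rw [mem_filter, mem_range]; exact ⟨hF z hz'.1, hz'.2⟩, by
        rw [mem_filter, mem_range]
        exact fun h => lt_irrefl _ h.1⟩
    · intro m hm
      rw [mem_filter, mem_range] at hm ⊢
      exact ⟨hm.1.trans (hF z hz'.1), hm.2⟩
  obtain ⟨i, hi, h3⟩ : ∃ i ∈ range (V * (2 * E) ^ 2), G.card ≤ V * (2 * E) ^ 2 *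
      (G.filter fun z => rk U V (2 * E) (R z) h (F z) = i).card := by
    by_contra hcon
    push Not at hcon
    have e1 : G.card = ∑ i ∈ range (V * (2 * E) ^ 2),
        (G.filter fun z => rk U V (2 * E) (R z) h (F z) = i).card :=
      card_eq_sum_card_fiberwise fun z hz => by
        simpa using h2 z hz
    have e2 : V * (2 * E) ^ 2 * G.card < V * (2 * E) ^ 2 * G.card := by
      calc _ = ∑ i ∈ range (V * (2 * E) ^ 2), V * (2 * E) ^ 2 *
            (G.filter fun z => rk U V (2 * E) (R z) h (F z) = i).card := by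
            rw [← mul_sum, ← e1]
        _ < ∑ i ∈ range (V * (2 * E) ^ 2), G.card :=
          sum_lt_sum_of_nonempty ⟨0, mem_range.mpr hI⟩ hcon
        _ = _ := by rw [sum_const, card_range, smul_eq_mul]
    exact lt_irrefl _ e2
  refine ⟨i, mem_range.mp hi, ?_⟩
  calc Z ≤ 2 * E * G.card := h1
    _ ≤ 2 * E * (V * (2 * E) ^ 2 *
        (G.filter fun z => rk U V (2 * E) (R z) h (F z) = i).card) := Nat.mul_le_mul_left _ h3
    _ = 2 * E * (V * (2 * E) ^ 2) *
        (G.filter fun z => rk U V (2 * E) (R z) h (F z) = i).card := by ring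
    _ ≤ _ := by
      refine Nat.mul_le_mul_left _ (card_le_card ?_)
      intro z hz
      rw [mem_filter] at hz
      obtain ⟨hz1, hz2⟩ := hz
      have hz' := (hGm z).mp hz1
      rw [mem_filter, mem_range]
      refine ⟨hz'.1, fun m => ⟨?_, ?_⟩⟩
      · rintro ⟨hm1, hm2, hm3⟩
        by_contra hne
        rcases Nat.lt_or_gt_of_ne hne with hlt | hgt
        · -- m < F z
          have : rk U V (2 * E) (R z) h m < rk U V (2 * E) (R z) h (F z) := by
            unfold rk
            refine card_lt_card ?_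
            rw [ssubset_iff_of_subset]
            · exact ⟨m, by rw [mem_filter, mem_range]; exact ⟨hlt, hm2⟩, by
                rw [mem_filter, mem_range]
                exact fun h => lt_irrefl _ h.1⟩
            · intro m' hm'
              rw [mem_filter, mem_range] at hm' ⊢
              exact ⟨hm'.1.trans hlt, hm'.2⟩
          omega
        · have : rk U V (2 * E) (R z) h (F z) < rk U V (2 * E) (R z) h m := by
            unfold rk
            refine card_lt_card ?_
            rw [ssubset_iff_of_subset]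
            · exact ⟨F z, by rw [mem_filter, mem_range]; exact ⟨hgt, hz'.2⟩, by
                rw [mem_filter, mem_range]
                exact fun h => lt_irrefl _ h.1⟩
            · intro m' hm'
              rw [mem_filter, mem_range] at hm' ⊢
              exact ⟨hm'.1.trans hgt, hm'.2⟩
          omega
      · rintro rfl
        exact ⟨hF z hz'.1, hz'.2, hz2⟩

end PRS84
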