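import Pool.Agent.PRS84.Struct
import Pool.Agent.PRS84.Guess

/-!
# PRS84/Half: from a guess of the message to an approximation of the code word
-/

set_option autoImplicit false

namespace PRS84

open Finset LSC LSA

theorem card_split (U V : ℕ) (hU : 0 < U) (p : ℕ → Prop) [DecidablePred p] :
    ((range (U * V)).filter p).card =
      ∑ x ∈ range U, ((range V).filter fun r => p (x + U * r)).card := by
  classical
  have h1 := tot_eq U V hU fun x r => p (x + U * r)
  have h2 : tot U V (fun x r => p (x + U * r)) = ((range (U * V)).filter p).card := by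
    unfold tot
    refine cardf_eq _ _ fun k _ => ?_
    show p (k % U + U * (k / U)) ↔ p k
    rw [Nat.mod_add_div]
  rw [← h2, h1, card_filter, sum_product]
  exact sum_congr rfl fun x _ => (card_filter _ _).symm

open Classical in
theorem hsg_symm (l m r : ℕ) : hsg l m r = hsg l r m := by
  unfold hsg
  exact prod_congr rfl fun i _ => if_congr and_comm rfl rfl

/-- two inner products agree on at least half of the words -/
theorem agr_half (l : ℕ) (f g : ℕ → Prop) : 2 ^ l ≤ 2 * agr (2 ^ l) (hde l f) (hde l g) := by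
  classical
  obtain ⟨hm, hbits⟩ := hof_spec l f
  obtain ⟨hm', hbits'⟩ := hof_spec l g
  have h1 : hde l f = hde l (fun i => bt (hof l f) i = 1) := funext fun r => propext
    (hde_congr (fun i hi => (hbits i hi).symm) fun _ _ => rfl)
  have h2 : hde l g = hde l (fun i => bt (hof l g) i = 1) := funext fun r => propext
    (hde_congr (fun i hi => (hbits' i hi).symm) fun _ _ => rfl)
  have h3 := agr_sum l (hde l f) (hde l g)
  have h4 : ∑ r ∈ range (2 ^ l), (if hde l f r then (-1 : ℤ) else 1) *
      (if hde l g r then (-1 : ℤ) else 1) =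
      ∑ r ∈ range (2 ^ l), hsg l r (hof l f) * hsg l r (hof l g) := by
    refine sum_congr rfl fun r _ => ?_
    rw [hsg_symm l r (hof l f), hsg_symm l r (hof l g), hsg_eq, hsg_eq, h1, h2]
  rw [h4] at h3
  by_cases hne : hof l f = hof l g
  · rw [hne, sum_congr rfl fun r _ => hsg_self l r (hof l g)] at h3
    simp only [sum_const, card_range, nsmul_eq_mul, mul_one, Nat.cast_pow, Nat.cast_ofNat] at h3
    have h5 : ((2 ^ l : ℕ) : ℤ) ≤ ((2 * agr (2 ^ l) (hde l f) (hde l g) : ℕ) : ℤ) := by
      push_cast
      have : (0 : ℤ) < 2 ^ l := by positivity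
      linarith
    exact_mod_cast h5
  · rw [hsg_ortho hm hm' hne] at h3
    have h5 : ((2 ^ l : ℕ) : ℤ) ≤ ((2 * agr (2 ^ l) (hde l f) (hde l g) : ℕ) : ℤ) := by
      push_cast
      linarith
    exact_mod_cast h5

theorem agr_full (l : ℕ) (f g : ℕ → Prop) (h : ∀ i < l, (f i ↔ g i)) :
    agr (2 ^ l) (hde l f) (hde l g) = 2 ^ l := by
  classical
  unfold agr
  rw [filter_true_of_mem, card_range]
  intro r _
  exact hde_congr h fun _ _ => rfl

open Classical in
/-- from the guess of the messages to the approximation of the code word -/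
theorem adv_of_good (J c s : ℕ) (f : ℕ → Prop) (G : ℕ → ℕ → Prop) (lam : ℕ)
    (h : mp J c s ≤ 2 ^ lam * ((range (mp J c s)).filter fun x =>
      ∀ y < 2 ^ K0 J c s, (G x y ↔ mes J c s f x y)).card) (R : ℕ → Prop)
    (hR : ∀ x < mp J c s, ∀ r < 2 ^ 2 ^ K0 J c s,
      (R (x + mp J c s * r) ↔ hde (2 ^ K0 J c s) (G x) r)) :
    Adv (fam J c J s).M lam R ((fam J c J s).enc f) := by
  obtain ⟨l, hl⟩ : ∃ l, l = 2 ^ K0 J c s := ⟨_, rfl⟩
  obtain ⟨m, hm⟩ : ∃ m, m = mp J c s := ⟨_, rfl⟩
  have hM : (fam J c J s).M = m * 2 ^ l := by rw [M_eq_mp, hm, hl]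
  have hmpos : 0 < m := by
    rw [hm]
    exact mp_pos J c s
  rw [← hm, ← hl] at h hR
  obtain ⟨g, hg⟩ : ∃ g, g = ((range m).filter fun x =>
      ∀ y < l, (G x y ↔ mes J c s f x y)).card := ⟨_, rfl⟩
  rw [← hg] at h
  have e1 : agr (fam J c J s).M R ((fam J c J s).enc f) =
      ∑ x ∈ range m, agr (2 ^ l) (hde l (G x)) (hde l (mes J c s f x)) := by
    rw [hM]
    unfold agr
    rw [card_split m (2 ^ l) hmpos]
    refine sum_congr rfl fun x hx => ?_
    congr 1
    ext r
    rw [mem_filter, mem_filter]
    refine and_congr_right fun hr => ?_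
    rw [hR x (mem_range.mp hx) r (mem_range.mp hr)]
    have h3 := enc_eq J c s f x r
    rw [← hm, ← hl, Nat.mod_eq_of_lt (mem_range.mp hx)] at h3
    rw [h3]
  have e2 : 2 ^ l * (m + g) ≤ 2 * agr (fam J c J s).M R ((fam J c J s).enc f) := by
    rw [e1, mul_sum]
    calc 2 ^ l * (m + g) = ∑ x ∈ range m, (2 ^ l +
          if ∀ y < l, (G x y ↔ mes J c s f x y) then 2 ^ l else 0) := by
          rw [sum_add_distrib, sum_const, card_range, smul_eq_mul, ← sum_filter, sum_const,
            smul_eq_mul, ← hg]
          ring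
      _ ≤ _ := by
          refine sum_le_sum fun x _ => ?_
          split_ifs with h4
          · rw [agr_full l _ _ h4]
            omega
          · rw [add_zero]
            exact agr_half l _ _
  unfold Adv
  rw [hM] at e2 ⊢
  have e3 : 2 ^ l * g ≤ 2 * agr (m * 2 ^ l) R ((fam J c J s).enc f) - m * 2 ^ l := by
    have : 2 ^ l * (m + g) = m * 2 ^ l + 2 ^ l * g := by ring
    omega
  calc m * 2 ^ l ≤ 2 ^ lam * g * 2 ^ l := Nat.mul_le_mul_right _ h
    _ = 2 ^ lam * (2 ^ l * g) := by ring
    _ ≤ _ := Nat.mul_le_mul_left _ e3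

open Classical in
/-- a block with many good numbers -/
theorem exists_block {Z m K : ℕ} (hm : 0 < m) (hZ : m ≤ Z) (g : ℕ → Prop)
    (h : Z ≤ K * ((range Z).filter g).card) :
    ∃ p ≤ Z, m ≤ 2 * K * ((range m).filter fun x => g (x + m * p)).card := by
  by_contra hcon
  push Not at hcon
  obtain ⟨q, hq⟩ : ∃ q, q = Z / m + 1 := ⟨_, rfl⟩
  have h1 : Z < m * q := by
    have := Nat.div_add_mod Z m
    have h2 := Nat.mod_lt Z hm
    rw [hq, Nat.mul_add, mul_one]
    omega
  have h2 : ((range Z).filter g).card ≤ ∑ p ∈ range q, ((range m).filter fun x => g (x + m * p)).card := by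
    have e1 : ((range Z).filter g).card ≤ ((range (q * m)).filter g).card := by
      refine card_le_card fun x hx => ?_
      rw [mem_filter, mem_range] at hx ⊢
      exact ⟨by rw [mul_comm]; exact hx.1.trans h1, hx.2⟩
    refine e1.trans ?_
    have e2 : ((range (q * m)).filter g).card ≤
        (((range q ×ˢ range m).filter fun y => g (y.2 + m * y.1))).card := by
      refine card_le_card_of_injOn (fun x => (x / m, x % m)) ?_ ?_
      · intro x hx
        rw [mem_coe, mem_filter, mem_range] at hx
        rw [mem_coe, mem_filter, mem_product, mem_range, mem_range]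
        exact ⟨⟨Nat.div_lt_of_lt_mul (by rw [mul_comm]; exact hx.1), Nat.mod_lt _ hm⟩, by
          show g (x % m + m * (x / m))
          rw [Nat.mod_add_div]
          exact hx.2⟩
      · intro x _ y _ hxy
        simp only [Prod.mk.injEq] at hxy
        rw [← Nat.mod_add_div x m, ← Nat.mod_add_div y m, hxy.1, hxy.2]
    refine e2.trans ?_
    rw [card_filter, sum_product]
    refine (sum_congr rfl fun p _ => ?_).le
    exact (card_filter _ _).symm
  have h3 : 2 * K * ((range Z).filter g).card < m * q := by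
    have hq0 : 0 < q := by rw [hq]; exact Nat.succ_pos _
    calc 2 * K * ((range Z).filter g).card ≤
          2 * K * ∑ p ∈ range q, ((range m).filter fun x => g (x + m * p)).card :=
          Nat.mul_le_mul_left _ h2
      _ = ∑ p ∈ range q, 2 * K * ((range m).filter fun x => g (x + m * p)).card := mul_sum _ _ _
      _ < ∑ p ∈ range q, m := by
        refine sum_lt_sum_of_nonempty ⟨0, mem_range.mpr hq0⟩ fun p hp => hcon p ?_
        have h4 : Z / m ≤ Z := Nat.div_le_self _ _
        have := mem_range.mp hp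
        omega
      _ = m * q := by
        rw [sum_const, card_range, smul_eq_mul, mul_comm]
  have h4 : m * q ≤ 2 * Z := by
    rw [hq, Nat.mul_add, mul_one]
    have := Nat.mul_div_le Z m
    omega
  have h5 : 2 * Z ≤ 2 * K * ((range Z).filter g).card := by
    calc 2 * Z ≤ 2 * (K * ((range Z).filter g).card) := Nat.mul_le_mul_left _ h
      _ = _ := by ring
  omega

end PRS84
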