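import Pool.Agent.H85B.HadOk
import Pool.Agent.H85P.Avg

/-!
# PRS84/Hash: the hash functions (Toeplitz matrices) are universal
-/

set_option autoImplicit false

namespace PRS84

open Finset LSC LSA

/-- The hash value of the message `f` (of `l` bits) for the seed `T`: the bit `i < n` is the inner product of `f`
with the bits `i, i + 1, ..., i + l - 1` of `T`. -/
noncomputable def hsh (n l T : ℕ) (f : ℕ → Prop) : ℕ := ofBits n fun i => hde l f (T / 2 ^ i)

theorem hsh_lt (n l T : ℕ) (f : ℕ → Prop) : hsh n l T f < 2 ^ n := ofBits_lt _ _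

theorem hsh_eq_iff (n l T : ℕ) (f g : ℕ → Prop) :
    hsh n l T f = hsh n l T g ↔ ∀ i < n, (hde l f (T / 2 ^ i) ↔ hde l g (T / 2 ^ i)) := by
  constructor
  · intro h i hi
    have h1 := bt_ofBits (n := n) (fun i => hde l f (T / 2 ^ i)) hi
    have h2 := bt_ofBits (n := n) (fun i => hde l g (T / 2 ^ i)) hi
    unfold hsh at h
    rw [h] at h1
    rw [← h1, h2]
  · exact fun h => ofBits_congr h

theorem hde_congr {l : ℕ} {f g : ℕ → Prop} {r r' : ℕ} (h : ∀ i < l, (f i ↔ g i))
    (hr : ∀ i < l, bt r i = bt r' i) : hde l f r ↔ hde l g r' := by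
  classical
  unfold hde
  refine Iff.of_eq (congrArg (fun c => c % 2 = 1) (cardf_eq _ _ fun i hi => ?_))
  rw [h i (mem_range.1 hi), hr i (mem_range.1 hi)]

/-- flipping the bit `j` of `r` -/
theorem hde_flip {l : ℕ} (f : ℕ → Prop) {r r' j : ℕ} (h : ∀ i, i ≠ j → bt r' i = bt r i)
    (hj : bt r' j ≠ bt r j) (hjl : j < l) (hf : f j) : hde l f r' ↔ ¬ hde l f r := by
  classical
  have b1 := bt_le r j
  have b2 := bt_le r' j
  have key : ∀ {a b : ℕ}, (∀ i, i ≠ j → bt b i = bt a i) → bt a j = 0 → bt b j = 1 →
      ((range l).filter fun i => f i ∧ bt b i = 1).card =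
        ((range l).filter fun i => f i ∧ bt a i = 1).card + 1 := by
    intro a b hab ha hb
    have e1 : ((range l).filter fun i => f i ∧ bt b i = 1) =
        insert j ((range l).filter fun i => f i ∧ bt a i = 1) := by
      ext i
      rw [mem_insert, mem_filter, mem_filter, mem_range]
      by_cases hij : i = j
      · subst hij
        simp [hb, hf, hjl]
      · rw [hab i hij]
        simp [hij]
    rw [e1, card_insert_of_notMem]
    rw [mem_filter]
    rintro ⟨-, -, h3⟩
    omega
  rcases Nat.le_one_iff_eq_zero_or_eq_one.1 b1 with h3 | h3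
  · have h4 : bt r' j = 1 := by omega
    have e2 := key h h3 h4
    unfold hde
    have e3 : ((range l).filter fun i => f i ∧ bt r' i = 1).card % 2 = 1 ↔
        ¬ ((range l).filter fun i => f i ∧ bt r i = 1).card % 2 = 1 := by omega
    convert e3
  · have h4 : bt r' j = 0 := by omega
    have e2 := key (fun i hi => (h i hi).symm) h4 h3
    unfold hde
    have e3 : ((range l).filter fun i => f i ∧ bt r' i = 1).card % 2 = 1 ↔
        ¬ ((range l).filter fun i => f i ∧ bt r i = 1).card % 2 = 1 := by omega
    convert e3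

theorem bt_xor (T k j : ℕ) : bt (T ^^^ 2 ^ k) j = if j = k then 1 - bt T j else bt T j := by
  have h : ∀ n j, bt n j = if n.testBit j = true then 1 else 0 := by
    intro n j
    rw [Nat.testBit_eq_decide_div_mod_eq]
    unfold bt
    have := Nat.mod_lt (n / 2 ^ j) (show 0 < 2 by norm_num)
    by_cases h1 : n / 2 ^ j % 2 = 1
    · simp [h1]
    · have : n / 2 ^ j % 2 = 0 := by omega
      simp [this]
  rw [h, h, Nat.testBit_xor, Nat.testBit_two_pow]
  by_cases hjk : j = k
  · subst hjk
    cases T.testBit j <;> simp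
  · have : ¬ k = j := fun h => hjk h.symm
    cases T.testBit j <;> simp [hjk, this]

theorem bt_div (T i j : ℕ) : bt (T / 2 ^ i) j = bt T (i + j) := by
  unfold bt
  rw [Nat.div_div_eq_div_mul, ← pow_add]

open Classical in
/-- The family is universal. -/
theorem hsh_univ {n l t : ℕ} (ht : n + l ≤ t) {m m' : ℕ} (hm : m < 2 ^ l) (hm' : m' < 2 ^ l)
    (hne : m ≠ m') :
    2 ^ n * ((range (2 ^ t)).filter fun T =>
      hsh n l T (fun i => bt m i = 1) = hsh n l T (fun i => bt m' i = 1)).card ≤ 2 ^ t := by
  -- the last position where the messages differ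
  obtain ⟨j0, hj0l, hj0, hlast⟩ : ∃ j < l, bt m j ≠ bt m' j ∧
      ∀ i < l, j < i → bt m i = bt m' i := by
    obtain ⟨i, hi, hne'⟩ := hb_ne hm hm' hne
    have hs : ((range l).filter fun i => bt m i ≠ bt m' i).Nonempty :=
      ⟨i, by rw [mem_filter, mem_range]; exact ⟨hi, hne'⟩⟩
    have h1 := max'_mem _ hs
    rw [mem_filter, mem_range] at h1
    refine ⟨_, h1.1, h1.2, fun i hi hlt => ?_⟩
    by_contra hcon
    have h2 := le_max' ((range l).filter fun i => bt m i ≠ bt m' i) i (by
      rw [mem_filter, mem_range]
      exact ⟨hi, hcon⟩)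
    omega
  obtain ⟨cond, hcond⟩ : ∃ cond : ℕ → ℕ → Prop, ∀ i T, cond i T ↔
      (hde l (fun i => bt m i = 1) (T / 2 ^ i) ↔ hde l (fun i => bt m' i = 1) (T / 2 ^ i)) :=
    ⟨_, fun _ _ => Iff.rfl⟩
  -- flipping
  have hflip : ∀ k T, (cond k (T ^^^ 2 ^ (k + j0)) ↔ ¬ cond k T) ∧
      ∀ i < k, (cond i (T ^^^ 2 ^ (k + j0)) ↔ cond i T) := by
    intro k T
    have hbits : ∀ i ≤ k, (∀ j, j ≠ k + j0 - i → bt ((T ^^^ 2 ^ (k + j0)) / 2 ^ i) j =
        bt (T / 2 ^ i) j) ∧ bt ((T ^^^ 2 ^ (k + j0)) / 2 ^ i) (k + j0 - i) ≠
          bt (T / 2 ^ i) (k + j0 - i) := by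
      intro i hi
      constructor
      · intro j hj
        rw [bt_div, bt_div, bt_xor, if_neg (by omega)]
      · rw [bt_div, bt_div, bt_xor, if_pos (by omega)]
        have := bt_le T (i + (k + j0 - i))
        omega
    constructor
    · obtain ⟨h1, h2⟩ := hbits k le_rfl
      have e0 : k + j0 - k = j0 := by omega
      rw [e0] at h1 h2
      rw [hcond, hcond]
      have b1 := bt_le m j0
      have b2 := bt_le m' j0
      have hsame : ∀ f : ℕ → Prop, ¬ f j0 → (hde l f ((T ^^^ 2 ^ (k + j0)) / 2 ^ k) ↔
          hde l f (T / 2 ^ k)) := by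
        intro f hf
        unfold hde
        refine Iff.of_eq (congrArg (fun c => c % 2 = 1) (cardf_eq _ _ fun i hi => ?_))
        by_cases hij : i = j0
        · subst hij
          simp [hf]
        · rw [h1 i hij]
      rcases Nat.le_one_iff_eq_zero_or_eq_one.1 b1 with h3 | h3
      · have h4 : bt m' j0 = 1 := by omega
        rw [hsame (fun i => bt m i = 1) (by simp [h3]),
          hde_flip (fun i => bt m' i = 1) h1 h2 hj0l h4]
        tauto
      · have h4 : bt m' j0 = 0 := by omega
        rw [hsame (fun i => bt m' i = 1) (by simp [h4]),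
          hde_flip (fun i => bt m i = 1) h1 h2 hj0l h3]
        tauto
    · intro i hi
      obtain ⟨h1, h2⟩ := hbits i hi.le
      rw [hcond, hcond]
      by_cases hjl : k + j0 - i < l
      · have h5 := hlast _ hjl (by omega)
        by_cases h6 : bt m (k + j0 - i) = 1
        · rw [hde_flip (fun i => bt m i = 1) h1 h2 hjl h6,
            hde_flip (fun i => bt m' i = 1) h1 h2 hjl (by rw [← h5]; exact h6)]
          tauto
        · have hsame : ∀ f : ℕ → Prop, ¬ f (k + j0 - i) →
              (hde l f ((T ^^^ 2 ^ (k + j0)) / 2 ^ i) ↔ hde l f (T / 2 ^ i)) := by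
            intro f hf
            unfold hde
            refine Iff.of_eq (congrArg (fun c => c % 2 = 1) (cardf_eq _ _ fun i' hi' => ?_))
            by_cases hij : i' = k + j0 - i
            · subst hij
              simp [hf]
            · rw [h1 i' hij]
          rw [hsame (fun i => bt m i = 1) h6, hsame (fun i => bt m' i = 1) (by rw [← h5]; exact h6)]
      · rw [hde_congr (l := l) (f := fun i => bt m i = 1) (g := fun i => bt m i = 1)
            (r := (T ^^^ 2 ^ (k + j0)) / 2 ^ i) (r' := T / 2 ^ i) (fun _ _ => Iff.rfl)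
            (fun j hj => h1 j (by omega)),
          hde_congr (l := l) (f := fun i => bt m' i = 1) (g := fun i => bt m' i = 1)
            (r := (T ^^^ 2 ^ (k + j0)) / 2 ^ i) (r' := T / 2 ^ i) (fun _ _ => Iff.rfl)
            (fun j hj => h1 j (by omega))]
  -- the induction
  have hind : ∀ k ≤ n, 2 ^ k * ((range (2 ^ t)).filter fun T => ∀ i < k, cond i T).card ≤ 2 ^ t := by
    intro k
    induction k with
    | zero =>
      intro _
      rw [pow_zero, one_mul]
      exact (card_filter_le _ _).trans (card_range _).le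
    | succ k ih =>
      intro hk
      have h1 := ih (by omega)
      have h2 : 2 * ((range (2 ^ t)).filter fun T => ∀ i < k + 1, cond i T).card ≤
          ((range (2 ^ t)).filter fun T => ∀ i < k, cond i T).card := by
        have hlt : k + j0 < t := by omega
        have e1 : ((range (2 ^ t)).filter fun T => ∀ i < k + 1, cond i T).card ≤
            ((range (2 ^ t)).filter fun T => (∀ i < k, cond i T) ∧ ¬ cond k T).card := by
          refine card_le_card_of_injOn (fun T => T ^^^ 2 ^ (k + j0)) ?_ ?_
          · intro T hT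
            rw [mem_coe, mem_filter, mem_range] at hT
            rw [mem_coe, mem_filter, mem_range]
            refine ⟨Nat.xor_lt_two_pow hT.1 (Nat.pow_lt_pow_right (by norm_num) hlt),
              fun i hi => ((hflip k T).2 i hi).mpr (hT.2 i (by omega)), ?_⟩
            rw [(hflip k T).1]
            exact not_not.mpr (hT.2 k (by omega))
          · intro T _ T' _ hTT
            exact Nat.xor_left_inj.mp hTT
        have e2 : ((range (2 ^ t)).filter fun T => ∀ i < k, cond i T).card =
            ((range (2 ^ t)).filter fun T => ∀ i < k + 1, cond i T).card +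
              ((range (2 ^ t)).filter fun T => (∀ i < k, cond i T) ∧ ¬ cond k T).card := by
          rw [← card_union_of_disjoint]
          · congr 1
            ext T
            rw [mem_union, mem_filter, mem_filter, mem_filter]
            constructor
            · rintro ⟨h3, h4⟩
              by_cases h5 : cond k T
              · refine Or.inl ⟨h3, fun i hi => ?_⟩
                rcases Nat.lt_succ_iff_lt_or_eq.1 hi with h6 | h6
                · exact h4 i h6
                · rw [h6]
                  exact h5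
              · exact Or.inr ⟨h3, h4, h5⟩
            · rintro (⟨h3, h4⟩ | ⟨h3, h4, -⟩)
              · exact ⟨h3, fun i hi => h4 i (by omega)⟩
              · exact ⟨h3, h4⟩
          · rw [disjoint_left]
            intro T h3 h4
            rw [mem_filter] at h3 h4
            exact h4.2.2 (h3.2 k (by omega))
        omega
      calc 2 ^ (k + 1) * ((range (2 ^ t)).filter fun T => ∀ i < k + 1, cond i T).card =
            2 ^ k * (2 * ((range (2 ^ t)).filter fun T => ∀ i < k + 1, cond i T).card) := by ring
        _ ≤ 2 ^ k * ((range (2 ^ t)).filter fun T => ∀ i < k, cond i T).card :=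
          Nat.mul_le_mul_left _ h2
        _ ≤ 2 ^ t := h1
  refine le_trans (Nat.mul_le_mul_left _ (card_le_card ?_)) (hind n le_rfl)
  intro T hT
  rw [mem_filter] at hT ⊢
  exact ⟨hT.1, fun i hi => (hcond i T).mpr ((hsh_eq_iff n l T _ _).mp hT.2 i hi)⟩

end PRS84
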