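import Pool.Agent.PRS84.Defs

/-!
# PRS84/Lang: the set
-/

set_option autoImplicit false

namespace PRS84

open Finset LSC LSA

/-- the length of the last part of the words, for the parameter `s` -/
def Lq (J s : ℕ) : ℕ := (s + 1) ^ (J - 2)

/-- the word length for the parameter `s` -/
noncomputable def Nq (J c s : ℕ) : ℕ := 2 * nJ J c s + Lq J s

theorem Lq_pos (J s : ℕ) : 0 < Lq J s := Nat.pow_pos (Nat.succ_pos s)

theorem Lq_mono (J : ℕ) {s t : ℕ} (h : s ≤ t) : Lq J s ≤ Lq J t :=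
  Nat.pow_le_pow_left (by omega) _

theorem Nq_lt {J : ℕ} (hJ : 2 ≤ J) (c : ℕ) : StrictMono (Nq J c) := by
  intro s t h
  have h1 := nJ_lt hJ c h
  have h2 := Lq_mono J h.le
  unfold Nq
  omega

theorem Nq_ge {J : ℕ} (hJ : 2 ≤ J) (c s : ℕ) : (s + 1) ^ J ≤ Nq J c s := by
  have := nJ_ge hJ c s
  unfold Nq
  omega

theorem Lq_le (J s : ℕ) : Lq J s ≤ (s + 1) ^ J :=
  Nat.pow_le_pow_right (Nat.succ_pos s) (by omega)

theorem Nq_le {J : ℕ} (hJ : 2 ≤ J) (c : ℕ) : ∃ C, ∀ s, Nq J c s ≤ C * (s + 1) ^ J := by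
  obtain ⟨C, hC⟩ := nJ_le hJ c
  refine ⟨2 * C + 1, fun s => ?_⟩
  have h1 := hC s
  have h2 := Lq_le J s
  unfold Nq
  calc 2 * nJ J c s + Lq J s ≤ 2 * (C * (s + 1) ^ J) + (s + 1) ^ J := by omega
    _ = _ := by ring

theorem K0_le_nb (J c j s : ℕ) : 2 ^ K0 J c s ≤ (fam J c j s).nb := by
  induction j with
  | zero => exact le_refl _
  | succ j ih =>
    refine ih.trans ?_
    show (fam J c j s).nb ≤ 2 * (s + 1) * bet (lmj J (j + 1) s) (fam J c j s).mu (s + 1)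
      (wj J c j s) + (fam J c j s).nb
    omega

theorem Lq_add_le (J c s : ℕ) : Lq J s + 2 ^ K0 J c s ≤ nJ J c s := by
  have h1 := K0_le_nb J c J s
  have h2 : Lq J s ≤ (s + 1) ^ (J - 1) := Nat.pow_le_pow_right (Nat.succ_pos s) (by omega)
  unfold nJ
  omega

theorem M_lt (J c s : ℕ) : (fam J c J s).M < 2 ^ nJ J c s :=
  (M_le J c J s).trans_lt (Nat.pow_lt_pow_right (by norm_num) (by unfold nJ; omega))

theorem mp_le (J c s : ℕ) : mp J c s ≤ 2 ^ nJ J c s := by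
  refine le_trans ?_ (M_lt J c s).le
  rw [M_eq_mp]
  exact Nat.le_mul_of_pos_right _ (by positivity)

/-- the parameter of the word `X` -/
noncomputable def sq (J c X : ℕ) : ℕ := LSC.mu (Nat.size X) fun s => Nq J c s + 1 = Nat.size X

theorem sq_eq {J : ℕ} (hJ : 2 ≤ J) (c : ℕ) {s x : ℕ} (hx : x < 2 ^ Nq J c s) :
    sq J c (2 ^ Nq J c s + x) = s := by
  unfold sq
  rw [size_two_pow_add hx]
  refine mu_eq ?_ rfl ?_
  · have h1 := Nq_ge hJ c s
    have h2 : s + 1 ≤ (s + 1) ^ J := Nat.le_self_pow (by omega) _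
    omega
  · intro j hj h
    have h3 := Nq_lt hJ c hj
    omega

/-- the words for the parameter `s` -/
def body (J c s : ℕ) (f : ℕ → Prop) (y : ℕ) : Prop :=
  y / 2 ^ nJ J c s / 2 ^ nJ J c s = hsh (Lq J s) (2 ^ K0 J c s) (y / 2 ^ nJ J c s % 2 ^ nJ J c s)
    (mes J c s f (y % 2 ^ nJ J c s))

/-- the set -/
def SP (J c s₃ : ℕ) (f : ℕ → ℕ → Prop) (X : ℕ) : Prop :=
  ((sq J c X < Nat.size X ∧ s₃ ≤ sq J c X) ∧
    body J c (sq J c X) (f (sq J c X)) (X - 2 ^ Nq J c (sq J c X))) ∨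
  (¬ (sq J c X < Nat.size X ∧ s₃ ≤ sq J c X) ∧ X = 2 ^ (Nat.size X - 1))

theorem SP_iff {J : ℕ} (hJ : 2 ≤ J) (c s₃ : ℕ) (f : ℕ → ℕ → Prop) {s x : ℕ} (hs : s₃ ≤ s)
    (hx : x < 2 ^ Nq J c s) : SP J c s₃ f (2 ^ Nq J c s + x) ↔ body J c s (f s) x := by
  unfold SP
  rw [sq_eq hJ c hx, size_two_pow_add hx, Nat.add_sub_cancel_left]
  have h1 := Nq_ge hJ c s
  have h2 : s + 1 ≤ (s + 1) ^ J := Nat.le_self_pow (by omega) _
  have h3 : s < Nq J c s + 1 ∧ s₃ ≤ s := ⟨by omega, hs⟩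
  constructor
  · rintro (⟨-, h⟩ | ⟨h, -⟩)
    · exact h
    · exact absurd h3 h
  · exact fun h => Or.inl ⟨h3, h⟩

theorem SP_iff' {J : ℕ} (c s₃ : ℕ) (f : ℕ → ℕ → Prop) {n x : ℕ}
    (hn : ∀ s, s₃ ≤ s → Nq J c s ≠ n) (hx : x < 2 ^ n) : SP J c s₃ f (2 ^ n + x) ↔ x = 0 := by
  have h1 : ¬ (sq J c (2 ^ n + x) < Nat.size (2 ^ n + x) ∧ s₃ ≤ sq J c (2 ^ n + x)) := by
    rintro ⟨h2, h3⟩
    have h4 : Nq J c (sq J c (2 ^ n + x)) + 1 = Nat.size (2 ^ n + x) :=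
      mu_spec (n := Nat.size (2 ^ n + x)) (p := fun s => Nq J c s + 1 = Nat.size (2 ^ n + x)) h2
    rw [size_two_pow_add hx] at h4
    exact hn _ h3 (by omega)
  unfold SP
  rw [size_two_pow_add hx, Nat.add_sub_cancel]
  rw [size_two_pow_add hx] at h1
  constructor
  · rintro (⟨h, -⟩ | ⟨-, h⟩)
    · exact absurd h h1
    · omega
  · intro h
    exact Or.inr ⟨h1, by omega⟩

/-! ### Counting -/

theorem tot_split (U V : ℕ) (Rw : ℕ → Prop) (z : ℕ) [DecidablePred fun w => Rw (z + U * w)] :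
    ((range (U * V)).filter fun w => Rw (z + U * w)).card =
      tot U V (fun T b => Rw (z + U * (T + U * b))) := by
  classical
  unfold tot
  refine cardf_eq _ _ fun w _ => ?_
  show Rw (z + U * w) ↔ Rw (z + U * (w % U + U * (w / U)))
  rw [Nat.mod_add_div]

theorem hit_split (U V : ℕ) (hU : 0 < U) (g : ℕ → ℕ) (hg : ∀ T < U, g T < V) (Rw : ℕ → Prop) (z : ℕ)
    [DecidablePred fun w => w / U = g (w % U) ∧ Rw (z + U * w)] :
    ((range (U * V)).filter fun w => w / U = g (w % U) ∧ Rw (z + U * w)).card =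
      hit U (fun T b => Rw (z + U * (T + U * b))) g := by
  classical
  unfold hit
  symm
  refine card_bij' (fun T _ => T + U * g T) (fun w _ => w % U) ?_ ?_ ?_ ?_
  · intro T hT
    rw [mem_filter, mem_range] at hT
    rw [mem_filter, mem_range, Nat.add_mul_div_left _ _ hU, Nat.div_eq_of_lt hT.1, zero_add,
      Nat.add_mul_mod_self_left, Nat.mod_eq_of_lt hT.1]
    refine ⟨?_, rfl, hT.2⟩
    calc T + U * g T < U + U * g T := by omega
      _ = U * (g T + 1) := by ring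
      _ ≤ U * V := Nat.mul_le_mul_left _ (hg T hT.1)
  · intro w hw
    rw [mem_filter, mem_range] at hw
    rw [mem_filter, mem_range]
    refine ⟨Nat.mod_lt _ hU, ?_⟩
    show Rw (z + U * (w % U + U * g (w % U)))
    rw [← hw.2.1, Nat.mod_add_div]
    exact hw.2.2
  · intro T hT
    rw [mem_filter, mem_range] at hT
    show (T + U * g T) % U = T
    rw [Nat.add_mul_mod_self_left, Nat.mod_eq_of_lt hT.1]
  · intro w hw
    rw [mem_filter, mem_range] at hw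
    show w % U + U * g (w % U) = w
    rw [← hw.2.1, Nat.mod_add_div]

theorem pow_Nq (J c s : ℕ) :
    2 ^ Nq J c s = 2 ^ nJ J c s * (2 ^ nJ J c s * 2 ^ Lq J s) := by
  unfold Nq
  rw [← pow_add, ← pow_add]
  congr 1
  ring

/-- the number of all words with `Rw` -/
theorem cnt_all (J c s : ℕ) (Rw : ℕ → Prop) :
    cnt (Nq J c s) Rw = ∑ z ∈ range (2 ^ nJ J c s), tot (2 ^ nJ J c s) (2 ^ Lq J s)
      (fun T b => Rw (2 ^ Nq J c s + (z + 2 ^ nJ J c s * (T + 2 ^ nJ J c s * b)))) := by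
  classical
  unfold cnt
  have h1 : ((range (2 ^ Nq J c s)).filter fun x => Rw (2 ^ Nq J c s + x)).card =
      ((range (2 ^ nJ J c s * (2 ^ nJ J c s * 2 ^ Lq J s))).filter
        fun x => Rw (2 ^ Nq J c s + x)).card := by
    rw [← pow_Nq]
  rw [h1, card_split _ _ (by positivity)]
  exact sum_congr rfl fun z _ => tot_split _ _ (fun x => Rw (2 ^ Nq J c s + x)) z

/-- the number of the words of the set with `Rw` -/
theorem cnt_body {J : ℕ} (hJ : 2 ≤ J) (c s₃ : ℕ) (f : ℕ → ℕ → Prop) {s : ℕ} (hs : s₃ ≤ s)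
    (Rw : ℕ → Prop) :
    cnt (Nq J c s) (fun X => SP J c s₃ f X ∧ Rw X) = ∑ z ∈ range (2 ^ nJ J c s),
      hit (2 ^ nJ J c s)
        (fun T b => Rw (2 ^ Nq J c s + (z + 2 ^ nJ J c s * (T + 2 ^ nJ J c s * b))))
        (fun T => hsh (Lq J s) (2 ^ K0 J c s) T (mes J c s (f s) z)) := by
  classical
  obtain ⟨U, hU⟩ : ∃ U, U = 2 ^ nJ J c s := ⟨_, rfl⟩
  have hU0 : 0 < U := by
    rw [hU]
    positivity
  have h1 : cnt (Nq J c s) (fun X => SP J c s₃ f X ∧ Rw X) =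
      ((range (U * (U * 2 ^ Lq J s))).filter
        fun x => body J c s (f s) x ∧ Rw (2 ^ Nq J c s + x)).card := by
    rw [hU, ← pow_Nq]
    unfold cnt
    refine cardf_eq _ _ fun x hx => ?_
    show SP J c s₃ f (2 ^ Nq J c s + x) ∧ Rw (2 ^ Nq J c s + x) ↔ _
    rw [SP_iff hJ c s₃ f hs (mem_range.mp hx)]
  rw [h1, card_split _ _ hU0, ← hU]
  refine sum_congr rfl fun z hz => ?_
  have hz' := mem_range.mp hz
  rw [← hit_split U (2 ^ Lq J s) hU0 (fun T => hsh (Lq J s) (2 ^ K0 J c s) T (mes J c s (f s) z))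
    (fun T _ => hsh_lt _ _ _ _) (fun x => Rw (2 ^ Nq J c s + x)) z]
  refine cardf_eq _ _ fun w _ => ?_
  unfold body
  rw [← hU, Nat.add_mul_div_left _ _ hU0, Nat.div_eq_of_lt hz', zero_add,
    Nat.add_mul_mod_self_left, Nat.mod_eq_of_lt hz']

theorem cnt_SP {J : ℕ} (hJ : 2 ≤ J) (c s₃ : ℕ) (f : ℕ → ℕ → Prop) {s : ℕ} (hs : s₃ ≤ s) :
    cnt (Nq J c s) (SP J c s₃ f) = 2 ^ nJ J c s * 2 ^ nJ J c s := by
  classical
  have h1 := cnt_body hJ c s₃ f hs fun _ => True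
  have h2 : (fun X => SP J c s₃ f X ∧ True) = SP J c s₃ f := by
    funext X
    simp
  rw [h2] at h1
  rw [h1]
  have h3 : ∀ z ∈ range (2 ^ nJ J c s), hit (2 ^ nJ J c s) (fun _ _ => True)
      (fun T => hsh (Lq J s) (2 ^ K0 J c s) T (mes J c s (f s) z)) = 2 ^ nJ J c s := by
    intro z _
    unfold hit
    calc _ = ((range (2 ^ nJ J c s)).filter fun _ => True).card :=
          cardf_eq _ _ fun _ _ => Iff.rfl
      _ = 2 ^ nJ J c s := by rw [filter_true, card_range]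
  rw [sum_congr rfl h3, sum_const, card_range, smul_eq_mul]

theorem cnt_SP' {J : ℕ} (c s₃ : ℕ) (f : ℕ → ℕ → Prop) {n : ℕ}
    (hn : ∀ s, s₃ ≤ s → Nq J c s ≠ n) : cnt n (SP J c s₃ f) = 1 := by
  classical
  unfold cnt
  rw [card_eq_one]
  refine ⟨0, ?_⟩
  ext x
  rw [mem_filter, mem_range, mem_singleton]
  constructor
  · rintro ⟨h1, h2⟩
    exact (SP_iff' c s₃ f hn h1).mp h2
  · rintro rfl
    have h0 : 0 < 2 ^ n := by positivity
    exact ⟨h0, (SP_iff' c s₃ f hn h0).mpr rfl⟩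

/-! ### Definability -/

variable {C : NClass} [Calc C] {α : Type} [Ctx α]

theorem par_K0 {J : ℕ} (hJ : 2 ≤ J) (c : ℕ) {s : α → ℕ} (hs : Fn C s) (hL : Lin J s) :
    Fn C (fun a => 2 ^ K0 J c (s a)) ∧ Ll (fun a => 2 ^ K0 J c (s a)) := by
  have h2 : Ll (fun a => 2 ^ K0 J c (s a)) :=
    Ll.ofLinH (t := fun s => 2 ^ K0 J c s) (K0_le hJ c) hL
  have h3 : Fn C (fun s : ℕ => K0 J c s) := (fam_dfb hJ c (j := 0) (by omega)).K C
  exact ⟨Fn.two_powL (h3.comp hs) (Ll.monoH h2 fun a => Nat.lt_two_pow_self.le), h2⟩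

theorem par_L (J : ℕ) {s : α → ℕ} (hs : Fn C s) (hL : Lin J s) :
    Fn C (fun a => Lq J (s a)) ∧ Ll (fun a => Lq J (s a)) := by
  refine ⟨?_, Ll.ofLinH (t := fun s => Lq J s) ⟨1, fun s => ?_⟩ hL⟩
  · have h0 : Fn C (fun a => s a + 1) := hs.add (Fn.const 1)
    exact Fn.npow h0 _
  · rw [one_mul]
    exact Lq_le J s

theorem par_nJ {J : ℕ} (hJ : 2 ≤ J) (c : ℕ) {s : α → ℕ} (hs : Fn C s) (hL : Lin J s) :
    Fn C (fun a => nJ J c (s a)) ∧ Ll (fun a => nJ J c (s a)) :=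
  ⟨(fn_nJ hJ c C).comp hs, Ll.ofLinH (t := fun s => nJ J c s) (nJ_le hJ c) hL⟩

theorem par_Nq {J : ℕ} (hJ : 2 ≤ J) (c : ℕ) {s : α → ℕ} (hs : Fn C s) (hL : Lin J s) :
    Fn C (fun a => Nq J c (s a)) ∧ Ll (fun a => Nq J c (s a)) :=
  ⟨((Fn.const 2).mul (par_nJ hJ c hs hL).1).add (par_L J hs hL).1,
    Ll.ofLinH (t := fun s => Nq J c s) (Nq_le hJ c) hL⟩

theorem par_mp {J : ℕ} (hJ : 2 ≤ J) (c : ℕ) {s : α → ℕ} (hs : Fn C s) (hL : Lin J s) :
    Fn C (fun a => mp J c (s a)) :=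
  ((fam_dfb hJ c (le_refl J)).M C α s hs hL).div
    (Fn.two_powL (par_K0 hJ c hs hL).1 (par_K0 hJ c hs hL).2)

protected theorem Pr.body {J : ℕ} (hJ : 2 ≤ J) (c : ℕ) {s y : α → ℕ} {f : α → ℕ → Prop}
    (hs : Fn C s) (hL : Lin J s) (hy : Fn C y) (hf : Pr C (fun q : α × ℕ => f q.1 q.2)) :
    Pr C (fun a => body J c (s a) (f a) (y a)) := by
  obtain ⟨k1, k2⟩ := par_K0 hJ c hs hL
  obtain ⟨l1, l2⟩ := par_L J hs hL
  obtain ⟨n1, n2⟩ := par_nJ hJ c hs hL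
  have hp := Fn.two_powL n1 n2
  unfold PRS84.body
  refine Pr.eq ((hy.div hp).div hp) ?_
  have hs' : Fn C (fun q : α × ℕ => s q.1) := hs.comp Fn.fst
  have hL' : Lin J (fun q : α × ℕ => s q.1) := hL.comp (C := C) Fn.fst
  have hm := par_mp hJ c hs' hL'
  have hp' : Fn C (fun q : α × ℕ => 2 ^ nJ J c (s q.1)) := hp.comp Fn.fst
  have hy' : Fn C (fun q : α × ℕ => y q.1) := hy.comp Fn.fst
  have hmin : Fn C (fun q : α × ℕ => 2 ^ min q.2 (2 ^ K0 J c (s q.1))) := by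
    refine Fn.two_powL (Fn.min Fn.snd (k1.comp Fn.fst)) ?_
    exact Ll.monoH (k2.comp (C := C) (g := fun q : α × ℕ => q.1) Fn.fst) fun q => min_le_right _ _
  have h1 : Pr C (fun q : α × ℕ => (fam J c J (s q.1)).enc (f q.1)
      (y q.1 % 2 ^ nJ J c (s q.1) % mp J c (s q.1) +
        mp J c (s q.1) * 2 ^ min q.2 (2 ^ K0 J c (s q.1)))) :=
    (fam_dfb hJ c (le_refl J)).enc C (α × ℕ) (fun q => s q.1)
      (fun q => y q.1 % 2 ^ nJ J c (s q.1) % mp J c (s q.1) +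
        mp J c (s q.1) * 2 ^ min q.2 (2 ^ K0 J c (s q.1))) (fun q => f q.1) hs' hL'
      (((hy'.mod hp').mod hm).add (hm.mul hmin))
      (hf.comp (f := fun q : (α × ℕ) × ℕ => (q.1.1, q.2)) ((Fn.fst.comp Fn.fst).pair Fn.snd))
  refine (Fn.hsh (f := fun a i => (fam J c J (s a)).enc (f a)
      (y a % 2 ^ nJ J c (s a) % mp J c (s a) +
        mp J c (s a) * 2 ^ min i (2 ^ K0 J c (s a)))) l1 l2 k1 ((hy.div hp).mod hp) h1).congr
      fun a => ?_
  refine ofBits_congr fun j _ => hde_congr (fun i hi => ?_) fun _ _ => rfl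
  unfold mes
  rw [min_eq_left hi.le]

theorem fn_sq {J : ℕ} (hJ : 2 ≤ J) (c : ℕ) :
    Fn C (fun X : ℕ => sq J c X) := by
  have h1 : Fn C (fun s : ℕ => Nq J c s) := by
    have h2 : Fn C (fun s : ℕ => Lq J s) := by
      have h0 : Fn C (fun s : ℕ => s + 1) := by fun_prop
      exact Fn.npow h0 _
    exact ((Fn.const 2).mul (fn_nJ hJ c C)).add h2
  unfold sq
  refine Fn.mu (n := fun X : ℕ => Nat.size X)
    (p := fun X s => Nq J c s + 1 = Nat.size X) (by fun_prop) ?_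
  have h3 : Fn C (fun q : ℕ × ℕ => Nq J c q.2) := h1.comp Fn.snd
  fun_prop

/-- the guarded parameter -/
noncomputable def sg (J c X : ℕ) : ℕ := if Nq J c (sq J c X) + 1 = Nat.size X then sq J c X else 0

theorem fn_sg {J : ℕ} (hJ : 2 ≤ J) (c : ℕ) : Fn C (fun X : ℕ => sg J c X) := by
  classical
  have h1 : Fn C (fun s : ℕ => Nq J c s) := by
    have h2 : Fn C (fun s : ℕ => Lq J s) := by
      have h0 : Fn C (fun s : ℕ => s + 1) := by fun_prop
      exact Fn.npow h0 _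
    exact ((Fn.const 2).mul (fn_nJ hJ c C)).add h2
  have h4 := fn_sq (C := C) hJ c
  have h3 : Fn C (fun X : ℕ => Nq J c (sq J c X)) := h1.comp h4
  have h5 : Pr C (fun X : ℕ => Nq J c (sq J c X) + 1 = Nat.size X) := by fun_prop
  exact Fn.ite h5 h4 (Fn.const 0)

theorem lin_sg {J : ℕ} (hJ : 2 ≤ J) (c : ℕ) : Lin J (fun X : ℕ => sg J c X) := by
  refine ⟨1, fun N => ?_⟩
  rw [sz_nat, one_mul]
  show ((if Nq J c (sq J c N) + 1 = Nat.size N then sq J c N else 0) + 1) ^ J ≤ _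
  split_ifs with h
  · have := Nq_ge hJ c (sq J c N)
    omega
  · rw [zero_add, one_pow]
    omega

protected theorem Pr.SP {J : ℕ} (hJ : 2 ≤ J) (c s₃ : ℕ) {f : ℕ → ℕ → Prop}
    (hf : Pr C (fun q : ℕ × ℕ => f q.1 q.2)) : Pr C (fun X : ℕ => SP J c s₃ f X) := by
  have h1 := fn_sq (C := C) hJ c
  have h2 := fn_sg (C := C) hJ c
  have h3 := lin_sg hJ c
  obtain ⟨n1, n2⟩ := par_Nq hJ c h2 h3
  have h4 := Fn.two_powL n1 n2
  have h5 : Pr C (fun X : ℕ => sq J c X < Nat.size X ∧ s₃ ≤ sq J c X) := by fun_prop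
  have h6 : Pr C (fun X : ℕ => body J c (sg J c X) (f (sg J c X)) (X - 2 ^ Nq J c (sg J c X))) := by
    refine Pr.body hJ c h2 h3 ((Fn.id).sub h4) ?_
    exact hf.comp (f := fun q : ℕ × ℕ => (sg J c q.1, q.2)) ((h2.comp Fn.fst).pair Fn.snd)
  have h7 : Pr C (fun X : ℕ => X = 2 ^ (Nat.size X - 1)) := by
    refine Pr.eq Fn.id ?_
    exact Fn.pow2 (by fun_prop) 1 fun X => by
      rw [sz_nat]
      omega
  refine ((h5.and h6).or (h5.not.and h7)).congr fun X => ?_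
  unfold PRS84.SP
  refine or_congr (and_congr_right fun h => ?_) Iff.rfl
  have h8 : Nq J c (sq J c X) + 1 = Nat.size X :=
    mu_spec (n := Nat.size X) (p := fun s => Nq J c s + 1 = Nat.size X) h.1
  have h9 : sg J c X = sq J c X := if_pos h8
  rw [h9]

end PRS84
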