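import Pool.Agent.PRS84.OneS
import Pool.Agent.PRS84.CoreP

/-!
# PRS84/Main: the theorem for classes of number predicates
-/

set_option autoImplicit false

namespace PRS84

open Finset LSC LSA

/-- the bound of the parts of the advice -/
def Bq (J w s : ℕ) : ℕ := 2 ^ (w * (s + 1) ^ J)

/-- the guess of the bit `y` of the message at `x`, with the advice `u` -/
def gq (J c w : ℕ) (Q : ℕ × ℕ → Prop) (s x u y : ℕ) : Prop :=
  gss (2 ^ nJ J c s) (2 ^ Lq J s) (2 * 2 ^ Lq J s) (Lq J s) (2 ^ K0 J c s)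
    (fun T b => (Q (2 ^ Nq J c s + (x + mp J c s * (u / 2 / Bq J w s / Bq J w s) +
      2 ^ nJ J c s * (T + 2 ^ nJ J c s * b)), u / 2 % Bq J w s) ↔ u % 2 = 0))
    (u / 2 / Bq J w s % Bq J w s) y

/-- the guarded parameter of `X` -/
noncomputable def sx (J c X : ℕ) : ℕ := if nJ J c (sJ J c X) + 1 = Nat.size X then sJ J c X else 0

/-- the approximation of the code word -/
noncomputable def QS (J c w : ℕ) (Q : ℕ × ℕ → Prop) (q : ℕ × ℕ) : Prop :=
  hde (2 ^ K0 J c (sx J c q.1))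
    (fun y => gq J c w Q (sx J c q.1) ((q.1 - 2 ^ nJ J c (sx J c q.1)) % mp J c (sx J c q.1)) q.2 y)
    ((q.1 - 2 ^ nJ J c (sx J c q.1)) / mp J c (sx J c q.1))

section

variable {C : NClass} [Calc C] {α : Type} [Ctx α]

protected theorem Fn.Bq {J : ℕ} (w : ℕ) {s : α → ℕ} (hs : Fn C s) (hL : Lin J s) :
    Fn C (fun a => Bq J w (s a)) := by
  unfold PRS84.Bq
  refine Fn.two_powL ?_ (Ll.ofLinH (t := fun s => w * (s + 1) ^ J) ⟨w, fun _ => le_rfl⟩ hL)
  have h0 : Fn C (fun a => s a + 1) := hs.add (Fn.const 1)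
  exact (Fn.const w).mul (Fn.npow h0 _)

protected theorem Pr.gq {J : ℕ} (hJ : 2 ≤ J) (c w : ℕ) {Q : ℕ × ℕ → Prop} (hQ : Pr C Q)
    {s x u y : α → ℕ} (hs : Fn C s) (hL : Lin J s) (hx : Fn C x) (hu : Fn C u) (hy : Fn C y) :
    Pr C (fun a => gq J c w Q (s a) (x a) (u a) (y a)) := by
  obtain ⟨k1, k2⟩ := par_K0 hJ c hs hL
  obtain ⟨l1, l2⟩ := par_L J hs hL
  obtain ⟨n1, n2⟩ := par_nJ hJ c hs hL
  obtain ⟨m1, m2⟩ := par_Nq hJ c hs hL
  have hp := Fn.two_powL n1 n2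
  have hpl := Fn.two_powL l1 l2
  have hpN := Fn.two_powL m1 m2
  have hm := par_mp hJ c hs hL
  have hB := Fn.Bq w hs hL
  have hu2 : Fn C (fun a => u a / 2) := hu.div (Fn.const 2)
  unfold PRS84.gq
  refine Pr.gss hp hpl ((Fn.const 2).mul hpl) l1 l2 k1 k2 ((hu2.div hB).mod hB) hy ?_
  have p1 : Fn C (fun q : α × ℕ × ℕ => 2 ^ nJ J c (s q.1)) := hp.comp Fn.fst
  have p2 : Fn C (fun q : α × ℕ × ℕ => 2 ^ Nq J c (s q.1)) := hpN.comp Fn.fst
  have p3 : Fn C (fun q : α × ℕ × ℕ => mp J c (s q.1)) := hm.comp Fn.fst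
  have p4 : Fn C (fun q : α × ℕ × ℕ => Bq J w (s q.1)) := hB.comp Fn.fst
  have p5 : Fn C (fun q : α × ℕ × ℕ => u q.1) := hu.comp Fn.fst
  have p6 : Fn C (fun q : α × ℕ × ℕ => x q.1) := hx.comp Fn.fst
  have p7 : Fn C (fun q : α × ℕ × ℕ => q.2.1) := Fn.fst.comp Fn.snd
  have p8 : Fn C (fun q : α × ℕ × ℕ => q.2.2) := Fn.snd.comp Fn.snd
  have p9 : Fn C (fun q : α × ℕ × ℕ => u q.1 / 2) := p5.div (Fn.const 2)
  refine Pr.iff (hQ.comp (f := fun q : α × ℕ × ℕ => (2 ^ Nq J c (s q.1) + (x q.1 +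
      mp J c (s q.1) * (u q.1 / 2 / Bq J w (s q.1) / Bq J w (s q.1)) +
      2 ^ nJ J c (s q.1) * (q.2.1 + 2 ^ nJ J c (s q.1) * q.2.2)), u q.1 / 2 % Bq J w (s q.1)))
      ?_) (Pr.eq (p5.mod (Fn.const 2)) (Fn.const 0))
  exact (p2.add ((p6.add (p3.mul ((p9.div p4).div p4))).add (p1.mul (p7.add (p1.mul p8))))).pair
    (p9.mod p4)

theorem fn_sx {J : ℕ} (hJ : 2 ≤ J) (c : ℕ) : Fn C (fun X : ℕ => sx J c X) := by
  classical
  have h1 : Fn C (fun s : ℕ => nJ J c s) := fn_nJ hJ c C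
  have h4 : Fn C (fun N : ℕ => sJ J c N) := by
    unfold sJ
    refine Fn.mu (n := fun N : ℕ => Nat.size N)
      (p := fun N s => nJ J c s + 1 = Nat.size N) (by fun_prop) ?_
    have h1 : Fn C (fun q : ℕ × ℕ => nJ J c q.2) := (fn_nJ hJ c C).comp Fn.snd
    fun_prop
  have h3 : Fn C (fun X : ℕ => nJ J c (sJ J c X)) := h1.comp h4
  have h5 : Pr C (fun X : ℕ => nJ J c (sJ J c X) + 1 = Nat.size X) := by fun_prop
  exact Fn.ite h5 h4 (Fn.const 0)

theorem lin_sx {J : ℕ} (hJ : 2 ≤ J) (c : ℕ) : Lin J (fun X : ℕ => sx J c X) := by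
  refine ⟨1, fun N => ?_⟩
  rw [sz_nat, one_mul]
  show ((if nJ J c (sJ J c N) + 1 = Nat.size N then sJ J c N else 0) + 1) ^ J ≤ _
  split_ifs with h
  · have := nJ_ge hJ c (sJ J c N)
    omega
  · rw [zero_add, one_pow]
    omega

protected theorem Pr.QS {J : ℕ} (hJ : 2 ≤ J) (c w : ℕ) {Q : ℕ × ℕ → Prop} (hQ : Pr C Q) :
    Pr C (QS J c w Q) := by
  have hs : Fn C (fun q : ℕ × ℕ => sx J c q.1) := (fn_sx hJ c).comp Fn.fst
  have hL : Lin J (fun q : ℕ × ℕ => sx J c q.1) := (lin_sx hJ c).comp (C := C) Fn.fst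
  obtain ⟨k1, k2⟩ := par_K0 hJ c hs hL
  obtain ⟨n1, n2⟩ := par_nJ hJ c hs hL
  have hp := Fn.two_powL n1 n2
  have hm := par_mp hJ c hs hL
  have hr : Fn C (fun q : ℕ × ℕ => q.1 - 2 ^ nJ J c (sx J c q.1)) := Fn.fst.sub hp
  unfold PRS84.QS
  refine Pr.hde (α := ℕ × ℕ) (l := fun q => 2 ^ K0 J c (sx J c q.1))
    (f := fun q y => gq J c w Q (sx J c q.1)
      ((q.1 - 2 ^ nJ J c (sx J c q.1)) % mp J c (sx J c q.1)) q.2 y) k1 (hr.div hm) ?_
  exact Pr.gq (α := (ℕ × ℕ) × ℕ) hJ c w hQ (s := fun q => sx J c q.1.1)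
    (x := fun q => (q.1.1 - 2 ^ nJ J c (sx J c q.1.1)) % mp J c (sx J c q.1.1))
    (u := fun q => q.1.2) (y := fun q => q.2) (hs.comp Fn.fst) (hL.comp (C := C) Fn.fst)
    ((hr.mod hm).comp Fn.fst) (Fn.snd.comp Fn.fst) Fn.snd

end

theorem sx_eq {J : ℕ} (hJ : 2 ≤ J) (c : ℕ) {s x : ℕ} (hx : x < 2 ^ nJ J c s) :
    sx J c (2 ^ nJ J c s + x) = s := by
  have h1 := sJ_eq hJ c hx
  unfold sx
  rw [h1, size_two_pow_add hx, if_pos rfl]

theorem mainN {C D : NClass} [Calc C] [Calc D] (hl : LocChk C D) {J : ℕ} (hJ : 3 ≤ J)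
    {l : ℕ → ℕ} (hlJ : ∀ c, ∃ s₀, ∀ s ≥ s₀, ∀ n ≤ c * (s + 1) ^ J, l n ≤ (s + 1) ^ (J - 2))
    (hln : ∀ n, l n ≤ n) (h : PRL l C D) (P : ℕ → Prop) (hP : Pr D P) : Pr C P := by
  classical
  have hJ2 : 2 ≤ J := by omega
  obtain ⟨c, F, hF, hcore⟩ := coreP hl hJ2 P hP
  obtain ⟨CN, hCN⟩ := Nq_le hJ2 c
  obtain ⟨C1, hC1⟩ := nJ_le hJ2 c
  obtain ⟨s₃, hs₃⟩ := hlJ CN
  have hl3 : ∀ s ≥ s₃, l (Nq J c s) ≤ Lq J s := fun s hs => hs₃ s hs _ (hCN s)
  obtain ⟨Q, A, c', n0, hQ, hA, hav⟩ := h (fun X => SP J c s₃ (msgJ J F) X)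
    (Pr.SP hJ2 c s₃ (Pr.msgJ J hF)) fun n => by
      show 0 < cnt n (SP J c s₃ (msgJ J F)) ∧ 2 ^ l n * cnt n (SP J c s₃ (msgJ J F)) ≤ 2 ^ n
      by_cases hn : ∃ s, s₃ ≤ s ∧ Nq J c s = n
      · obtain ⟨s, hs, rfl⟩ := hn
        rw [cnt_SP hJ2 c s₃ (msgJ J F) hs]
        refine ⟨by positivity, ?_⟩
        rw [pow_Nq J c s]
        calc 2 ^ l (Nq J c s) * (2 ^ nJ J c s * 2 ^ nJ J c s) ≤
              2 ^ Lq J s * (2 ^ nJ J c s * 2 ^ nJ J c s) :=
              Nat.mul_le_mul_right _ (Nat.pow_le_pow_right (by norm_num) (hl3 s hs))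
          _ = _ := by ring
      · push Not at hn
        rw [cnt_SP' c s₃ (msgJ J F) hn]
        refine ⟨by norm_num, ?_⟩
        rw [mul_one]
        exact Nat.pow_le_pow_right (by norm_num) (hln n)
  obtain ⟨w, hw⟩ : ∃ w, w = c' * (CN + 1) + C1 + 6 := ⟨_, rfl⟩
  obtain ⟨s₂, hs₂⟩ : ∃ s₂, s₂ = max s₃ (max n0 6) := ⟨_, rfl⟩
  have hone : ∀ s, s₂ ≤ s → ∃ u, Nat.size u ≤ (3 * w + 1) * (s + 1) ^ J ∧
      Adv (fam J c J s).M (fam J c J s).lam (fun r => QS J c w Q (2 ^ nJ J c s + r, u))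
        ((fam J c J s).enc (msgJ J F s)) := by
    intro s hs
    have hs3 : s₃ ≤ s := by
      have := le_max_left s₃ (max n0 6)
      omega
    have hn0 : n0 ≤ s := by
      have h1 := le_max_right s₃ (max n0 6)
      have h2 := le_max_left n0 6
      omega
    have h6 : 6 ≤ s := by
      have h1 := le_max_right s₃ (max n0 6)
      have h2 := le_max_right n0 6
      omega
    have hsJ : s + 1 ≤ (s + 1) ^ J := Nat.le_self_pow (by omega) _
    have hN0 : n0 ≤ Nq J c s := by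
      have := Nq_ge hJ2 c s
      omega
    obtain ⟨e0, he0, i, hi, p, hp, hgd⟩ := one_s hJ2 c s₃ (msgJ J F) hs3
      (fun X => Q (X, A (Nq J c s))) (hl3 s hs3) (hav _ hN0)
    obtain ⟨B, hB⟩ : ∃ B, B = Bq J w s := ⟨_, rfl⟩
    have hB0 : 0 < B := by
      rw [hB]
      unfold Bq
      positivity
    have hBle : ∀ m, m ≤ w * (s + 1) ^ J → 2 ^ m ≤ B := fun m hm => by
      rw [hB]
      exact Nat.pow_le_pow_right (by norm_num) hm
    have hL1 : Lq J s ≤ (s + 1) ^ J := Lq_le J s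
    have b1 : A (Nq J c s) < B := by
      refine (Nat.lt_size_self _).trans_le (hBle _ ((hA _).trans ?_))
      calc c' * (Nq J c s + 1) ≤ c' * (CN * (s + 1) ^ J + (s + 1) ^ J) :=
            Nat.mul_le_mul_left _ (by have := hCN s; omega)
        _ = c' * (CN + 1) * (s + 1) ^ J := by ring
        _ ≤ w * (s + 1) ^ J := Nat.mul_le_mul_right _ (by omega)
    have b2 : i < B := by
      refine hi.trans_le (hBle _ ?_)
      calc 3 * Lq J s + 2 ≤ 5 * (s + 1) ^ J := by omega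
        _ ≤ w * (s + 1) ^ J := Nat.mul_le_mul_right _ (by omega)
    have b3 : p < B := by
      refine (hp.trans_lt (Nat.pow_lt_pow_right (by norm_num) (Nat.lt_succ_self _))).trans_le
        (hBle _ ?_)
      calc nJ J c s + 1 ≤ C1 * (s + 1) ^ J + (s + 1) ^ J := by have := hC1 s; omega
        _ = (C1 + 1) * (s + 1) ^ J := by ring
        _ ≤ w * (s + 1) ^ J := Nat.mul_le_mul_right _ (by omega)
    refine ⟨e0 + 2 * (A (Nq J c s) + B * (i + B * p)), ?_, ?_⟩
    · rw [Nat.size_le]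
      have e1 : 2 ^ ((3 * w + 1) * (s + 1) ^ J) = 2 ^ ((s + 1) ^ J) * (B * (B * B)) := by
        rw [hB]
        unfold Bq
        rw [← pow_add, ← pow_add, ← pow_add]
        congr 1
        ring
      rw [e1]
      have e2 : 2 ≤ 2 ^ ((s + 1) ^ J) := by
        calc 2 = 2 ^ 1 := (pow_one 2).symm
          _ ≤ _ := Nat.pow_le_pow_right (by norm_num) (by omega)
      have e3 : i + B * p + 1 ≤ B * B := by
        have : B * (p + 1) ≤ B * B := Nat.mul_le_mul_left _ b3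
        rw [Nat.mul_add, mul_one] at this
        omega
      have e4 : A (Nq J c s) + B * (i + B * p) + 1 ≤ B * (B * B) := by
        have := Nat.mul_le_mul_left B e3
        rw [Nat.mul_add, mul_one] at this
        omega
      calc e0 + 2 * (A (Nq J c s) + B * (i + B * p)) <
            2 * (A (Nq J c s) + B * (i + B * p) + 1) := by omega
        _ ≤ 2 ^ ((s + 1) ^ J) * (B * (B * B)) := Nat.mul_le_mul e2 e4
    · -- the parts of the advice
      obtain ⟨u, hu⟩ : ∃ u, u = e0 + 2 * (A (Nq J c s) + B * (i + B * p)) := ⟨_, rfl⟩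
      rw [← hu]
      have u0 : u % 2 = e0 := by omega
      have u1 : u / 2 = A (Nq J c s) + B * (i + B * p) := by omega
      have u2 : u / 2 % B = A (Nq J c s) := by
        rw [u1, Nat.add_mul_mod_self_left, Nat.mod_eq_of_lt b1]
      have u3 : u / 2 / B = i + B * p := by
        rw [u1, Nat.add_mul_div_left _ _ hB0, Nat.div_eq_of_lt b1, zero_add]
      have u4 : u / 2 / B % B = i := by
        rw [u3, Nat.add_mul_mod_self_left, Nat.mod_eq_of_lt b2]
      have u5 : u / 2 / B / B = p := by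
        rw [u3, Nat.add_mul_div_left _ _ hB0, Nat.div_eq_of_lt b2, zero_add]
      have hadv : Adv (fam J c J s).M (4 * Lq J s + 4)
          (fun r => QS J c w Q (2 ^ nJ J c s + r, u)) ((fam J c J s).enc (msgJ J F s)) := by
        refine adv_of_good J c s (msgJ J F s) (fun x y => gq J c w Q s x u y) (4 * Lq J s + 4)
          ?_ _ ?_
        · refine hgd.trans (Nat.mul_le_mul_left _ (card_le_card fun x hx => ?_))
          rw [mem_filter] at hx ⊢
          refine ⟨hx.1, fun y hy => ?_⟩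
          have h7 := hx.2 y hy
          unfold gq
          rw [← hB, u0, u2, u4, u5]
          exact h7
        · intro x hx r hr
          have hlt : x + mp J c s * r < 2 ^ nJ J c s := by
            refine lt_trans ?_ (M_lt J c s)
            rw [M_eq_mp]
            calc x + mp J c s * r < mp J c s + mp J c s * r := by omega
              _ = mp J c s * (r + 1) := by ring
              _ ≤ _ := Nat.mul_le_mul_left _ hr
          show QS J c w Q (2 ^ nJ J c s + (x + mp J c s * r), u) ↔ _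
          unfold QS
          simp only
          rw [sx_eq hJ2 c hlt, Nat.add_sub_cancel_left, Nat.add_mul_mod_self_left,
            Nat.mod_eq_of_lt hx, Nat.add_mul_div_left _ _ (mp_pos J c s), Nat.div_eq_of_lt hx,
            zero_add]
      refine hadv.mono ?_
      rw [lam_eq]
      have e1 : lmj J J s = (s + 1) ^ (J - 1) + 1 := by
        unfold lmj
        omega
      rw [e1]
      have e2 : (s + 1) ^ (J - 1) = (s + 1) * Lq J s := by
        unfold Lq
        rw [← pow_succ']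
        congr 1
        omega
      rw [e2]
      have e3 := Lq_pos J s
      have e4 : 7 * Lq J s ≤ (s + 1) * Lq J s := Nat.mul_le_mul_right _ (by omega)
      omega
  refine hcore (QS J c w Q) (fun s => if hs : s₂ ≤ s then Classical.choose (hone s hs) else 0)
    (3 * w + 1) s₂ (Pr.QS hJ2 c w hQ) ?_ ?_
  · intro s
    by_cases hs : s₂ ≤ s
    · simp only [hs, dite_true]
      exact (Classical.choose_spec (hone s hs)).1
    · simp only [hs, dite_false]
      rw [Nat.size_zero]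
      exact Nat.zero_le _
  · intro s hs
    have hs' : s₂ ≤ s := hs
    simp only [hs', dite_true]
    exact (Classical.choose_spec (hone s hs')).2

end PRS84
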