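import Pool.Agent.PRS84.Lang

/-!
# PRS84/OneS: the guess for one parameter
-/

set_option autoImplicit false

namespace PRS84

open Finset LSC LSA

theorem cnt_eq (n : ℕ) (p : ℕ → Prop) (hd : DecidablePred fun x => p (2 ^ n + x)) :
    cnt n p = (@Finset.filter ℕ (fun x => p (2 ^ n + x)) hd (range (2 ^ n))).card := by
  classical
  unfold cnt
  exact cardf_eq _ _ fun _ _ => Iff.rfl

theorem cnt_not (n : ℕ) (p : ℕ → Prop) : cnt n (fun x => ¬ p x) + cnt n p = 2 ^ n := by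
  classical
  have h := card_filter_add_card_filter_not (s := range (2 ^ n)) (fun x => p (2 ^ n + x))
  rw [card_range, ← cnt_eq n p, ← cnt_eq n (fun x => ¬ p x)] at h
  rw [add_comm, h]

theorem cnt_and_not (n : ℕ) (p q : ℕ → Prop) :
    cnt n (fun x => p x ∧ ¬ q x) + cnt n (fun x => p x ∧ q x) = cnt n p := by
  classical
  have h := card_filter_add_card_filter_not
    (s := (range (2 ^ n)).filter fun x => p (2 ^ n + x)) (fun x => q (2 ^ n + x))
  rw [filter_filter, filter_filter, ← cnt_eq n p, ← cnt_eq n (fun x => p x ∧ q x),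
    ← cnt_eq n (fun x => p x ∧ ¬ q x)] at h
  rw [add_comm, h]

theorem cnt_congr (n : ℕ) {p q : ℕ → Prop} (h : ∀ x, p x ↔ q x) : cnt n p = cnt n q := by
  have : p = q := funext fun x => propext (h x)
  rw [this]

theorem hsh_hof (n l T : ℕ) (f : ℕ → Prop) : hsh n l T f = hn n l T (hof l f) := by
  obtain ⟨-, hb⟩ := hof_spec l f
  unfold hn hsh
  exact ofBits_congr fun j _ => hde_congr (fun i hi => (hb i hi).symm) fun _ _ => rfl

/-- the sign -/
theorem exists_sign {J : ℕ} (hJ : 2 ≤ J) (c s₃ : ℕ) (f : ℕ → ℕ → Prop) {s : ℕ} (hs : s₃ ≤ s)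
    (Qw : ℕ → Prop) {e : ℕ} (he : e ≤ Lq J s) (h : Dst (Nq J c s) e (SP J c s₃ f) Qw) :
    ∃ e0 < 2, 2 ^ Nq J c s ≤ 2 ^ Lq J s *
      (2 ^ Lq J s * cnt (Nq J c s) (fun X => SP J c s₃ f X ∧ (Qw X ↔ e0 = 0)) -
        cnt (Nq J c s) (fun X => (Qw X ↔ e0 = 0))) := by
  obtain ⟨N, hN⟩ : ∃ N, N = Nq J c s := ⟨_, rfl⟩
  obtain ⟨U, hU⟩ : ∃ U : ℕ, U = 2 ^ nJ J c s := ⟨_, rfl⟩
  obtain ⟨V, hV⟩ : ∃ V : ℕ, V = 2 ^ Lq J s := ⟨_, rfl⟩
  have hU0 : 0 < U := by rw [hU]; positivity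
  have hV0 : 0 < V := by rw [hV]; positivity
  have hpow : 2 ^ N = U * (U * V) := by rw [hN, pow_Nq, hU, hV]
  have hp : cnt N (SP J c s₃ f) = U * U := by rw [hN, hU]; exact cnt_SP hJ c s₃ f hs
  rw [← hN] at h ⊢
  rw [← hV]
  obtain ⟨pq, hpq⟩ : ∃ pq, pq = cnt N (fun X => SP J c s₃ f X ∧ Qw X) := ⟨_, rfl⟩
  obtain ⟨q, hq⟩ : ∃ q, q = cnt N Qw := ⟨_, rfl⟩
  have h1 : ((2 ^ N : ℕ) : ℤ) ≤ 2 ^ e * |(V : ℤ) * pq - q| := by
    unfold Dst at h
    rw [hp, ← hpq, ← hq] at h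
    have e1 : (2 : ℤ) ^ N * pq - ((U * U : ℕ) : ℤ) * q = (U * U : ℤ) * (V * pq - q) := by
      have : ((2 ^ N : ℕ) : ℤ) = ((U * (U * V) : ℕ) : ℤ) := by rw [hpow]
      push_cast at this
      rw [this]
      push_cast
      ring
    rw [e1, abs_mul, abs_of_pos (show (0 : ℤ) < U * U by positivity)] at h
    have e2 : (U * U : ℤ) * ((2 ^ N : ℕ) : ℤ) ≤ (U * U : ℤ) * (2 ^ e * |(V : ℤ) * pq - q|) := by
      push_cast at h ⊢
      linarith
    exact le_of_mul_le_mul_left e2 (by positivity)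
  have h2 : (2 : ℤ) ^ e ≤ V := by
    rw [hV]
    push_cast
    exact pow_le_pow_right₀ (by norm_num) he
  rcases le_total q (V * pq) with h3 | h3
  · refine ⟨0, by norm_num, ?_⟩
    have e3 : cnt N (fun X => SP J c s₃ f X ∧ (Qw X ↔ 0 = 0)) = pq := by
      rw [hpq]
      exact cnt_congr N fun x => by simp
    have e4 : cnt N (fun X => (Qw X ↔ 0 = 0)) = q := by
      rw [hq]
      exact cnt_congr N fun x => by simp
    rw [e3, e4]
    have h4 : ((V * pq - q : ℕ) : ℤ) = (V : ℤ) * pq - q := by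
      rw [Nat.cast_sub h3]
      push_cast
      ring
    rw [← h4, abs_of_nonneg (by positivity)] at h1
    have h5 : ((2 ^ N : ℕ) : ℤ) ≤ ((V * (V * pq - q) : ℕ) : ℤ) := by
      refine h1.trans ?_
      rw [Nat.cast_mul]
      exact mul_le_mul_of_nonneg_right h2 (by positivity)
    exact_mod_cast h5
  · refine ⟨1, by norm_num, ?_⟩
    have f1 := cnt_and_not N (SP J c s₃ f) Qw
    have f2 := cnt_not N Qw
    rw [hp, ← hpq] at f1
    rw [← hq] at f2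
    have e3 : cnt N (fun X => SP J c s₃ f X ∧ (Qw X ↔ 1 = 0)) =
        cnt N (fun X => SP J c s₃ f X ∧ ¬ Qw X) := cnt_congr N fun x => by simp
    have e4 : cnt N (fun X => (Qw X ↔ 1 = 0)) = cnt N (fun X => ¬ Qw X) :=
      cnt_congr N fun x => by simp
    rw [e3, e4]
    obtain ⟨pq', hpq'⟩ : ∃ pq', pq' = cnt N (fun X => SP J c s₃ f X ∧ ¬ Qw X) := ⟨_, rfl⟩
    obtain ⟨q', hq'⟩ : ∃ q', q' = cnt N (fun X => ¬ Qw X) := ⟨_, rfl⟩
    rw [← hpq', ← hq']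
    rw [← hpq'] at f1
    rw [← hq'] at f2
    have g1 : (pq' : ℤ) + pq = U * U := by exact_mod_cast f1
    have g2 : (q' : ℤ) + q = U * (U * V) := by
      rw [hpow] at f2
      exact_mod_cast f2
    have g3 : (V : ℤ) * pq' - q' = q - V * pq := by
      have : (pq' : ℤ) = U * U - pq := by linarith
      rw [this]
      have : (q' : ℤ) = U * (U * V) - q := by linarith
      rw [this]
      ring
    have h3' : (V : ℤ) * pq ≤ q := by exact_mod_cast h3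
    have g4 : q' ≤ V * pq' := by
      have : (q' : ℤ) ≤ V * pq' := by linarith
      exact_mod_cast this
    have h4 : ((V * pq' - q' : ℕ) : ℤ) = -((V : ℤ) * pq - q) := by
      rw [Nat.cast_sub g4]
      push_cast
      linarith
    rw [abs_of_nonpos (by linarith), ← h4] at h1
    have h5 : ((2 ^ N : ℕ) : ℤ) ≤ ((V * (V * pq' - q') : ℕ) : ℤ) := by
      refine h1.trans ?_
      rw [Nat.cast_mul]
      exact mul_le_mul_of_nonneg_right h2 (by positivity)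
    exact_mod_cast h5

open Classical in
theorem one_s {J : ℕ} (hJ : 2 ≤ J) (c s₃ : ℕ) (f : ℕ → ℕ → Prop) {s : ℕ} (hs : s₃ ≤ s)
    (Qw : ℕ → Prop) {e : ℕ} (he : e ≤ Lq J s) (h : Dst (Nq J c s) e (SP J c s₃ f) Qw) :
    ∃ e0 < 2, ∃ i < 2 ^ (3 * Lq J s + 2), ∃ p ≤ 2 ^ nJ J c s, mp J c s ≤ 2 ^ (4 * Lq J s + 4) *
      ((range (mp J c s)).filter fun x => ∀ y < 2 ^ K0 J c s,
        (gss (2 ^ nJ J c s) (2 ^ Lq J s) (2 * 2 ^ Lq J s) (Lq J s) (2 ^ K0 J c s)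
          (fun T b => (Qw (2 ^ Nq J c s + (x + mp J c s * p +
            2 ^ nJ J c s * (T + 2 ^ nJ J c s * b))) ↔ e0 = 0)) i y ↔ mes J c s (f s) x y)).card := by
  obtain ⟨e0, he0, h1⟩ := exists_sign hJ c s₃ f hs Qw he h
  obtain ⟨U, hU⟩ : ∃ U : ℕ, U = 2 ^ nJ J c s := ⟨_, rfl⟩
  obtain ⟨L, hL⟩ : ∃ L : ℕ, L = Lq J s := ⟨_, rfl⟩
  obtain ⟨l, hl⟩ : ∃ l : ℕ, l = 2 ^ K0 J c s := ⟨_, rfl⟩
  have hU0 : 0 < U := by rw [hU]; positivity
  have hV0 : 0 < 2 ^ L := by positivity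
  obtain ⟨R, hR⟩ : ∃ R : ℕ → ℕ → ℕ → Prop, R = fun z T b =>
      (Qw (2 ^ Nq J c s + (z + U * (T + U * b))) ↔ e0 = 0) := ⟨_, rfl⟩
  have e1 := cnt_body hJ c s₃ f hs (fun X => (Qw X ↔ e0 = 0))
  have e2 := cnt_all J c s (fun X => (Qw X ↔ e0 = 0))
  rw [e1, e2, ← hU, ← hL, ← hl] at h1
  have hpw : 2 ^ Nq J c s = U * (U * 2 ^ L) := by rw [pow_Nq, hU, hL]
  have hgs := guess U U (2 ^ L) (2 ^ L) (2 ^ l) hU0 hV0 hV0 (fun T m => hn L l T m)
    (fun T _ m _ => hsh_lt _ _ _ _)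
    (fun m hm m' hm' hne => by
      have h2 := hsh_univ (n := L) (l := l) (t := nJ J c s)
        (by rw [hL, hl]; exact Lq_add_le J c s) hm hm' hne
      rw [← hU] at h2
      exact h2)
    R (fun z => hof l (mes J c s (f s) z)) (fun z _ => (hof_spec l _).1) (by
      rw [← hpw]
      refine h1.trans (le_of_eq ?_)
      have e3 : ∀ z, (fun T => hsh L l T (mes J c s (f s) z)) =
          fun T => hn L l T (hof l (mes J c s (f s) z)) := fun z => funext fun T => hsh_hof L l T _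
      rw [hR]
      simp only [e3])
  obtain ⟨i, hi, h3⟩ := hgs
  obtain ⟨good, hgood⟩ : ∃ good : ℕ → Prop, good = fun z => ∀ y < l,
      (gss U (2 ^ L) (2 * 2 ^ L) L l (R z) i y ↔ mes J c s (f s) z y) := ⟨_, rfl⟩
  have h4 : U ≤ 2 * 2 ^ L * (2 ^ L * (2 * 2 ^ L) ^ 2) * ((range U).filter good).card := by
    refine h3.trans (Nat.mul_le_mul_left _ (card_le_card fun z hz => ?_))
    rw [mem_filter] at hz ⊢
    refine ⟨hz.1, ?_⟩
    rw [hgood]
    intro y hy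
    obtain ⟨h5, h6⟩ := hof_spec l (mes J c s (f s) z)
    rw [← h6 y hy]
    constructor
    · rintro ⟨m, hm1, hm2, hm3, hm4⟩
      have := (hz.2 m).mp ⟨hm1, hm2, hm3⟩
      rw [← this]
      exact hm4
    · intro hb
      obtain ⟨g1, g2, g3⟩ := (hz.2 _).mpr rfl
      exact ⟨_, g1, g2, g3, hb⟩
  have hm0 := mp_pos J c s
  have hmU : mp J c s ≤ U := by
    rw [hU]
    exact mp_le J c s
  obtain ⟨p, hp, h5⟩ := exists_block hm0 hmU good h4
  refine ⟨e0, he0, i, ?_, p, by rw [← hU]; exact hp, ?_⟩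
  · refine hi.trans_le (le_of_eq ?_)
    rw [← hL]
    ring
  · refine h5.trans ?_
    rw [← hL, ← hU, ← hl]
    have e3 : 2 * (2 * 2 ^ L * (2 ^ L * (2 * 2 ^ L) ^ 2)) = 2 ^ (4 * L + 4) := by ring
    rw [e3]
    refine Nat.mul_le_mul_left _ (card_le_card fun x hx => ?_)
    rw [mem_filter] at hx ⊢
    refine ⟨hx.1, fun y hy => ?_⟩
    have h6 := hx.2
    rw [hgood] at h6
    have h7 := h6 y hy
    rw [hR] at h7
    have e4 : mes J c s (f s) (x + mp J c s * p) y ↔ mes J c s (f s) x y := by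
      unfold mes
      rw [Nat.add_mul_mod_self_left]
    rw [e4] at h7
    exact h7

end PRS84
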