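import Pool.Agent.H85B.CoreJ
import Pool.Agent.PRS84.Hash

/-!
# PRS84/Struct: the code words are inner products with the last coordinate
-/

set_option autoImplicit false

namespace PRS84

open Finset LSC LSA

/-- the number of the values of the coordinates before the last one, at the level `j` -/
noncomputable def Mq (J c : ℕ) : ℕ → ℕ → ℕ
  | 0, _ => 1
  | j + 1, s => prm (bet (lmj J (j + 1) s) (fam J c j s).mu (s + 1) (wj J c j s)) ^ (s + 1) *
      prm (bet (lmj J (j + 1) s) (fam J c j s).mu (s + 1) (wj J c j s)) ^ (s + 1) * Mq J c j s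

/-- the innermost message -/
noncomputable def fm (J c : ℕ) : ℕ → ℕ → (ℕ → Prop) → ℕ → ℕ → Prop
  | 0, _, f, _ => f
  | j + 1, s, f, x => fm J c j s
      (tup (prm (bet (lmj J (j + 1) s) (fam J c j s).mu (s + 1) (wj J c j s))) (s + 1) (wj J c j s)
        (wpr (s + 1) (wj J c j s)) f
        (x % prm (bet (lmj J (j + 1) s) (fam J c j s).mu (s + 1) (wj J c j s)) ^ (s + 1))
        (x / prm (bet (lmj J (j + 1) s) (fam J c j s).mu (s + 1) (wj J c j s)) ^ (s + 1) %
          prm (bet (lmj J (j + 1) s) (fam J c j s).mu (s + 1) (wj J c j s)) ^ (s + 1)))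
      (x / prm (bet (lmj J (j + 1) s) (fam J c j s).mu (s + 1) (wj J c j s)) ^ (s + 1) /
        prm (bet (lmj J (j + 1) s) (fam J c j s).mu (s + 1) (wj J c j s)) ^ (s + 1))

theorem M_eq (J c j s : ℕ) : (fam J c j s).M = Mq J c j s * 2 ^ 2 ^ K0 J c s := by
  induction j with
  | zero =>
    show 2 ^ 2 ^ K0 J c s = 1 * 2 ^ 2 ^ K0 J c s
    rw [one_mul]
  | succ j ih =>
    show prm (bet (lmj J (j + 1) s) (fam J c j s).mu (s + 1) (wj J c j s)) ^ (s + 1) *
      prm (bet (lmj J (j + 1) s) (fam J c j s).mu (s + 1) (wj J c j s)) ^ (s + 1) *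
        (fam J c j s).M = _
    rw [ih]
    show _ = prm (bet (lmj J (j + 1) s) (fam J c j s).mu (s + 1) (wj J c j s)) ^ (s + 1) *
      prm (bet (lmj J (j + 1) s) (fam J c j s).mu (s + 1) (wj J c j s)) ^ (s + 1) * Mq J c j s *
        2 ^ 2 ^ K0 J c s
    ring

theorem Mq_pos (J c j s : ℕ) : 0 < Mq J c j s := by
  have h := M_pos J c j s
  rw [M_eq] at h
  exact Nat.pos_of_mul_pos_right h

theorem enc_fm (J c j s : ℕ) : ∀ (f : ℕ → Prop) (x r : ℕ), x < Mq J c j s →
    ((fam J c j s).enc f (x + Mq J c j s * r) ↔ hde (2 ^ K0 J c s) (fm J c j s f x) r) := by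
  induction j with
  | zero =>
    intro f x r hx
    have h0 : x = 0 := by
      have : x < 1 := hx
      omega
    subst h0
    show hde (2 ^ K0 J c s) f (0 + 1 * r) ↔ hde (2 ^ K0 J c s) f r
    rw [zero_add, one_mul]
  | succ j ih =>
    intro f x r hx
    obtain ⟨q, hq⟩ : ∃ q, q = prm (bet (lmj J (j + 1) s) (fam J c j s).mu (s + 1) (wj J c j s)) :=
      ⟨_, rfl⟩
    obtain ⟨P, hP⟩ : ∃ P, P = q ^ (s + 1) := ⟨_, rfl⟩
    have hM : Mq J c (j + 1) s = P * P * Mq J c j s := by
      rw [hP, hq]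
      rfl
    have hPP : 0 < P := by
      have h := Mq_pos J c (j + 1) s
      rw [hM] at h
      rcases Nat.eq_zero_or_pos P with h0 | h0
      · rw [h0] at h
        simp at h
      · exact h0
    have e1 : (fam J c (j + 1) s).enc f (x + Mq J c (j + 1) s * r) ↔
        (fam J c j s).enc (tup q (s + 1) (wj J c j s) (wpr (s + 1) (wj J c j s)) f
          ((x + Mq J c (j + 1) s * r) % P) ((x + Mq J c (j + 1) s * r) / P % P))
          ((x + Mq J c (j + 1) s * r) / P / P) := by
      rw [hP, hq]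
      rfl
    have e2 : fm J c (j + 1) s f x = fm J c j s (tup q (s + 1) (wj J c j s)
        (wpr (s + 1) (wj J c j s)) f (x % P) (x / P % P)) (x / P / P) := by
      rw [hP, hq]
      rfl
    rw [e1, e2]
    rw [hM] at hx ⊢
    have f1 : (x + P * P * Mq J c j s * r) % P = x % P := by
      rw [show x + P * P * Mq J c j s * r = x + P * (P * Mq J c j s * r) by ring,
        Nat.add_mul_mod_self_left]
    have f2 : (x + P * P * Mq J c j s * r) / P = x / P + P * (Mq J c j s * r) := by
      rw [show x + P * P * Mq J c j s * r = x + P * (P * (Mq J c j s * r)) by ring,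
        Nat.add_mul_div_left _ _ hPP]
    rw [f1, f2, Nat.add_mul_mod_self_left, Nat.add_mul_div_left _ _ hPP]
    refine ih _ _ _ ?_
    rw [Nat.div_div_eq_div_mul]
    exact Nat.div_lt_of_lt_mul hx

theorem hde_single {l i : ℕ} (f : ℕ → Prop) (hi : i < l) : hde l f (2 ^ i) ↔ f i := by
  classical
  have hb : ∀ j, bt (2 ^ i) j = 1 ↔ j = i := by
    intro j
    have h := Nat.testBit_two_pow (n := i) (m := j)
    rw [Nat.testBit_eq_decide_div_mod_eq] at h
    unfold bt
    have h2 : (2 ^ i / 2 ^ j % 2 = 1) ↔ i = j := by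
      simpa using h
    rw [h2]
    exact eq_comm
  unfold hde
  have e1 : ((range l).filter fun j => f j ∧ bt (2 ^ i) j = 1).card =
      ((range l).filter fun j => f j ∧ j = i).card :=
    cardf_eq _ _ fun j _ => by rw [hb j]
  have e2 : ((range l).filter fun j => f j ∧ j = i).card = if f i then 1 else 0 := by
    by_cases hf : f i
    · rw [if_pos hf, card_eq_one]
      refine ⟨i, ?_⟩
      ext j
      rw [mem_filter, mem_range, mem_singleton]
      constructor
      · rintro ⟨-, -, h⟩
        exact h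
      · rintro rfl
        exact ⟨hi, hf, rfl⟩
    · rw [if_neg hf, card_eq_zero, filter_eq_empty_iff]
      rintro j - ⟨h1, h2⟩
      subst h2
      exact hf h1
  have e3 : ((range l).filter fun j => f j ∧ bt (2 ^ i) j = 1).card % 2 = 1 ↔ f i := by
    rw [e1, e2]
    by_cases hf : f i
    · simp [hf]
    · simp [hf]
  convert e3

/-- the number of the values of the coordinates before the last one -/
noncomputable def mp (J c s : ℕ) : ℕ := (fam J c J s).M / 2 ^ 2 ^ K0 J c s

theorem mp_eq (J c s : ℕ) : mp J c s = Mq J c J s := by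
  unfold mp
  rw [M_eq, Nat.mul_div_cancel _ (by positivity)]

theorem mp_pos (J c s : ℕ) : 0 < mp J c s := by
  rw [mp_eq]
  exact Mq_pos J c J s

theorem M_eq_mp (J c s : ℕ) : (fam J c J s).M = mp J c s * 2 ^ 2 ^ K0 J c s := by
  rw [mp_eq, M_eq]

/-- the message (of `2 ^ K0 J c s` bits) at `x` -/
noncomputable def mes (J c s : ℕ) (f : ℕ → Prop) (x i : ℕ) : Prop :=
  (fam J c J s).enc f (x % mp J c s + mp J c s * 2 ^ i)

theorem enc_eq (J c s : ℕ) (f : ℕ → Prop) (x r : ℕ) :
    (fam J c J s).enc f (x % mp J c s + mp J c s * r) ↔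
      hde (2 ^ K0 J c s) (mes J c s f x) r := by
  have hx : x % mp J c s < Mq J c J s := by
    rw [← mp_eq]
    exact Nat.mod_lt _ (mp_pos J c s)
  have h1 : ∀ i < 2 ^ K0 J c s, (mes J c s f x i ↔ fm J c J s f (x % mp J c s) i) := by
    intro i hi
    unfold mes
    have h2 := enc_fm J c J s f (x % mp J c s) (2 ^ i) hx
    rw [← mp_eq] at h2
    rw [h2]
    exact hde_single _ hi
  have h3 := enc_fm J c J s f (x % mp J c s) r hx
  rw [← mp_eq] at h3
  rw [h3]
  exact (hde_congr h1 fun _ _ => rfl).symm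

end PRS84
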