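import Pool.Agent.PRS84.Main
import Pool.Agent.H85P.Half

/-!
# PRS84/Word: from words to numbers
-/

set_option autoImplicit false

namespace PRS84

open H85L LSC LSA LSP

/-- the hypothesis for words -/
def WHyp (κ₁ κ₂ : Kind) (η : ℝ) : Prop :=
  ∀ S : Set (List Bool), LinClass κ₂ S →
    (∀ n : ℕ, 0 < {w : Fin n → Bool | List.ofFn w ∈ S}.ncard ∧
      ({w : Fin n → Bool | List.ofFn w ∈ S}.ncard : ℝ) ≤ 2 ^ ((n : ℝ) - (n : ℝ) ^ (1 - η))) →
    ∃ (k : ℕ) (R : Set (List (Bool × (Fin k → Bool)))) (adv : ∀ n, Fin n → Fin k → Bool) (n0 : ℕ),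
      LinClass κ₁ R ∧ ∀ n ≥ n0, (2 : ℝ) ^ (-(n : ℝ) ^ (1 - η)) ≤
        |({w : Fin n → Bool | List.ofFn w ∈ S ∧ (List.ofFn fun i => (w i, adv n i)) ∈ R}.ncard : ℝ) /
            {w : Fin n → Bool | List.ofFn w ∈ S}.ncard -
          ({w : Fin n → Bool | (List.ofFn fun i => (w i, adv n i)) ∈ R}.ncard : ℝ) / 2 ^ n|

/-- the word of length `n` of a number -/
noncomputable def bits (n x : ℕ) : Fin n → Bool := fun i => decide (bt x i = 1)

theorem bits_inj {n x y : ℕ} (hx : x < 2 ^ n) (hy : y < 2 ^ n) (h : bits n x = bits n y) :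
    x = y := by
  have h3 : nb (List.ofFn (bits n x)) = nb (List.ofFn (bits n y)) := by rw [h]
  unfold bits at h3
  rwa [nb_bits n x hx, nb_bits n y hy] at h3

theorem bits_surj {n : ℕ} (w : Fin n → Bool) : ∃ x < 2 ^ n, bits n x = w := by
  classical
  have h1 : ((Finset.range (2 ^ n)).image (bits n)) = Finset.univ := by
    apply Finset.eq_univ_of_card
    rw [Finset.card_image_of_injOn, Finset.card_range]
    · simp
    · intro x hx y hy hxy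
      exact bits_inj (Finset.mem_range.mp hx) (Finset.mem_range.mp hy) hxy
  have h2 : w ∈ (Finset.range (2 ^ n)).image (bits n) := by rw [h1]; exact Finset.mem_univ _
  obtain ⟨x, hx, hw⟩ := Finset.mem_image.mp h2
  exact ⟨x, Finset.mem_range.mp hx, hw⟩

/-- numbers of words and of numbers -/
theorem ncard_eq_cnt {n : ℕ} (W : Set (Fin n → Bool)) (p : ℕ → Prop)
    (h : ∀ x < 2 ^ n, (bits n x ∈ W ↔ p (2 ^ n + x))) : W.ncard = cnt n p := by
  classical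
  have h1 : W = ((((Finset.range (2 ^ n)).filter fun x => p (2 ^ n + x)).image (bits n) :
      Finset (Fin n → Bool)) : Set (Fin n → Bool)) := by
    ext w
    rw [Finset.mem_coe, Finset.mem_image]
    constructor
    · intro hw
      obtain ⟨x, hx, rfl⟩ := bits_surj w
      exact ⟨x, Finset.mem_filter.mpr ⟨Finset.mem_range.mpr hx, (h x hx).mp hw⟩, rfl⟩
    · rintro ⟨x, hx, rfl⟩
      rw [Finset.mem_filter, Finset.mem_range] at hx
      exact (h x hx.1).mpr hx.2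
  rw [h1, Set.ncard_coe_finset, Finset.card_image_of_injOn]
  · unfold cnt
    congr 1
  · intro x hx y hy hxy
    rw [Finset.coe_filter] at hx hy
    exact bits_inj (Finset.mem_range.mp hx.1) (Finset.mem_range.mp hy.1) hxy

theorem nw_bits {n x : ℕ} (hx : x < 2 ^ n) : nw (List.ofFn (bits n x)) = 2 ^ n + x := by
  unfold nw bits
  rw [nb_bits n x hx, List.length_ofFn]

theorem w2_bits {k n x : ℕ} (hx : x < 2 ^ n) (adv : Fin n → Fin k → Bool) :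
    w2 k (2 ^ n + x) (advN k n adv) = List.ofFn fun i : Fin n => (bits n x i, adv i) := by
  unfold w2
  have e3 : Nat.size (2 ^ n + x) - 1 = n := by rw [size_add_pow hx]; rfl
  rw [e3]
  congr 1
  funext i
  unfold lt2
  rw [bt_add i.2]
  unfold bits
  congr 1
  funext j
  have := bt_advN k n adv i j
  cases hadv : adv i j with
  | true => simp [this.mpr hadv]
  | false =>
    have h3 : ¬ bt (advN k n adv) (i * k + j) = 1 := fun h4 => by
      rw [this.mp h4] at hadv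
      exact absurd hadv (by simp)
    simp [h3]

theorem size_advN (k n : ℕ) (adv : Fin n → Fin k → Bool) : Nat.size (advN k n adv) ≤ k * (n + 1) := by
  rw [Nat.size_le]
  refine (ofBits_lt _ _).trans_le (Nat.pow_le_pow_right (by norm_num) ?_)
  nlinarith

theorem small_real {n c : ℕ} {t : ℝ} (h : 2 ^ ⌈t⌉₊ * c ≤ 2 ^ n) :
    (c : ℝ) ≤ 2 ^ ((n : ℝ) - t) := by
  have h1 : (2 : ℝ) ^ ⌈t⌉₊ * c ≤ 2 ^ n := by exact_mod_cast h
  have h2 : (2 : ℝ) ^ t ≤ 2 ^ ⌈t⌉₊ := by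
    rw [← Real.rpow_natCast]
    exact Real.rpow_le_rpow_of_exponent_le (by norm_num) (Nat.le_ceil t)
  rw [Real.rpow_sub (by norm_num), Real.rpow_natCast, le_div_iff₀ (by positivity)]
  calc (c : ℝ) * 2 ^ t ≤ c * 2 ^ ⌈t⌉₊ := mul_le_mul_of_nonneg_left h2 (Nat.cast_nonneg _)
    _ = (2 : ℝ) ^ ⌈t⌉₊ * c := mul_comm _ _
    _ ≤ 2 ^ n := h1

theorem dst_of_real {n : ℕ} {t : ℝ} {P Q : ℕ → Prop} (hP : 0 < cnt n P)
    (h : (2 : ℝ) ^ (-t) ≤ |(cnt n (fun x => P x ∧ Q x) : ℝ) / cnt n P - (cnt n Q : ℝ) / 2 ^ n|) :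
    Dst n ⌈t⌉₊ P Q := by
  unfold Dst
  have hp : (0 : ℝ) < cnt n P := by exact_mod_cast hP
  have h2 : (0 : ℝ) < 2 ^ n := by positivity
  have h3 : (2 : ℝ) ^ n * cnt n P * |(cnt n (fun x => P x ∧ Q x) : ℝ) / cnt n P -
      (cnt n Q : ℝ) / 2 ^ n| = |2 ^ n * (cnt n (fun x => P x ∧ Q x) : ℝ) - cnt n P * cnt n Q| := by
    have h4 : (0 : ℝ) < 2 ^ n * cnt n P := by positivity
    rw [← abs_of_pos h4, ← abs_mul]
    congr 1
    field_simp
  have h5 : (1 : ℝ) ≤ 2 ^ ⌈t⌉₊ * 2 ^ (-t) := by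
    have h6 : (2 : ℝ) ^ t ≤ 2 ^ ⌈t⌉₊ := by
      rw [← Real.rpow_natCast]
      exact Real.rpow_le_rpow_of_exponent_le (by norm_num) (Nat.le_ceil t)
    rw [Real.rpow_neg (by norm_num), ← div_eq_mul_inv, le_div_iff₀ (by positivity), one_mul]
    exact h6
  have h7 : (2 : ℝ) ^ n * cnt n P ≤
      2 ^ ⌈t⌉₊ * |2 ^ n * (cnt n (fun x => P x ∧ Q x) : ℝ) - cnt n P * cnt n Q| := by
    rw [← h3]
    have h8 : (0 : ℝ) ≤ 2 ^ n * cnt n P := by positivity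
    calc (2 : ℝ) ^ n * cnt n P = 2 ^ n * cnt n P * 1 := by ring
      _ ≤ 2 ^ n * cnt n P * (2 ^ ⌈t⌉₊ * 2 ^ (-t)) := mul_le_mul_of_nonneg_left h5 h8
      _ ≤ 2 ^ n * cnt n P * (2 ^ ⌈t⌉₊ * |(cnt n (fun x => P x ∧ Q x) : ℝ) / cnt n P -
            (cnt n Q : ℝ) / 2 ^ n|) :=
          mul_le_mul_of_nonneg_left (mul_le_mul_of_nonneg_left h (by positivity)) h8
      _ = _ := by ring
  exact_mod_cast h7

theorem prl_of_words {κ₁ κ₂ : Kind} (h₁ : κ₁.det = true ∨ κ₁.time = false)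
    {η : ℝ} (_h0 : 0 < η) (_h1 : η < 1) (h : WHyp κ₁ κ₂ η) :
    PRL (fun n => ⌈(n : ℝ) ^ (1 - η)⌉₊) (KC κ₁) (KC κ₂) := by
  intro P hP hsmall
  have hS : ∀ n, {w : Fin n → Bool | List.ofFn w ∈ {w : List Bool | P (nw w)}}.ncard = cnt n P := by
    intro n
    refine ncard_eq_cnt _ _ fun x hx => ?_
    show P (nw (List.ofFn (bits n x))) ↔ _
    rw [nw_bits hx]
  obtain ⟨k, R, adv, n0, hR, hgood⟩ := h {w : List Bool | P (nw w)} (lin_nw hP) (fun n => by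
    rw [hS n]
    exact ⟨(hsmall n).1, small_real (hsmall n).2⟩)
  have hQ' : Pr (KC κ₁) (fun p : ℕ × ℕ => (dec (st (w2 k p.1 p.2)) : List _) ∈ R) :=
    (lin_pr h₁ hR).comp (fn_w2 k)
  refine ⟨fun p => (dec (st (w2 k p.1 p.2)) : List _) ∈ R, fun n => advN k n (adv n), k, n0, hQ',
    fun n => size_advN k n (adv n), fun n hn => ?_⟩
  have hgn := hgood n hn
  have e1 : {w : Fin n → Bool | (List.ofFn fun i => (w i, adv n i)) ∈ R}.ncard =
      cnt n (fun x => (dec (st (w2 k x (advN k n (adv n)))) : List _) ∈ R) := by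
    refine ncard_eq_cnt _ _ fun x hx => ?_
    show (List.ofFn fun i => (bits n x i, adv n i)) ∈ R ↔ _
    rw [dec_st, w2_bits hx]
  have e2 : {w : Fin n → Bool | List.ofFn w ∈ {w : List Bool | P (nw w)} ∧
      (List.ofFn fun i => (w i, adv n i)) ∈ R}.ncard =
      cnt n (fun x => P x ∧ (dec (st (w2 k x (advN k n (adv n)))) : List _) ∈ R) := by
    refine ncard_eq_cnt _ _ fun x hx => ?_
    show (P (nw (List.ofFn (bits n x))) ∧ (List.ofFn fun i => (bits n x i, adv n i)) ∈ R) ↔ _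
    rw [dec_st, w2_bits hx, nw_bits hx]
  rw [e1, e2, hS n] at hgn
  exact dst_of_real (hsmall n).1 hgn

/-- the exponents -/
theorem ceil_rpow_le_two {η : ℝ} (h1 : η < 1) {J : ℕ} (hJ : 2 ≤ J) (hJη : 2 < J * η)
    (c : ℕ) : ∃ s₀ : ℕ, ∀ s ≥ s₀, ∀ n ≤ c * (s + 1) ^ J,
      ⌈(n : ℝ) ^ (1 - η)⌉₊ ≤ (s + 1) ^ (J - 2) := by
  have hδ : 0 < J * η - 2 := by linarith
  have ht : Filter.Tendsto (fun s : ℕ => ((s : ℝ) + 1) ^ (J * η - 2)) Filter.atTop
      Filter.atTop := by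
    refine (tendsto_rpow_atTop hδ).comp ?_
    exact Filter.tendsto_atTop_add_const_right _ _ tendsto_natCast_atTop_atTop
  obtain ⟨s₀, hs₀⟩ := Filter.eventually_atTop.mp
    (ht.eventually (Filter.eventually_ge_atTop ((c : ℝ) ^ (1 - η))))
  refine ⟨s₀, fun s hs n hn => ?_⟩
  rw [Nat.ceil_le]
  have hs1 : (0 : ℝ) < (s : ℝ) + 1 := by positivity
  have e1 : (n : ℝ) ≤ c * ((s : ℝ) + 1) ^ J := by exact_mod_cast hn
  have e2 : (n : ℝ) ^ (1 - η) ≤ (c * ((s : ℝ) + 1) ^ J) ^ (1 - η) :=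
    Real.rpow_le_rpow (Nat.cast_nonneg _) e1 (by linarith)
  have e3 : (c * ((s : ℝ) + 1) ^ J) ^ (1 - η) = (c : ℝ) ^ (1 - η) * ((s : ℝ) + 1) ^ (J * (1 - η)) := by
    rw [Real.mul_rpow (Nat.cast_nonneg _) (by positivity), ← Real.rpow_natCast,
      ← Real.rpow_mul hs1.le]
  have e4 : ((s : ℝ) + 1) ^ (J * η - 2) * ((s : ℝ) + 1) ^ (J * (1 - η)) =
      ((s : ℝ) + 1) ^ (J - 2) := by
    rw [← Real.rpow_add hs1, show (J : ℝ) * η - 2 + J * (1 - η) = ((J - 2 : ℕ) : ℝ) by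
      rw [Nat.cast_sub hJ]
      push_cast
      ring, Real.rpow_natCast]
  have e5 : (c : ℝ) ^ (1 - η) * ((s : ℝ) + 1) ^ (J * (1 - η)) ≤
      ((s : ℝ) + 1) ^ (J * η - 2) * ((s : ℝ) + 1) ^ (J * (1 - η)) :=
    mul_le_mul_of_nonneg_right (hs₀ s hs) (Real.rpow_nonneg hs1.le _)
  push_cast
  rw [← e4]
  rw [e3] at e2
  exact e2.trans e5

theorem ceil_rpow_le_self {η : ℝ} (h0 : 0 < η) (h1 : η < 1) (n : ℕ) :
    ⌈(n : ℝ) ^ (1 - η)⌉₊ ≤ n := by
  rw [Nat.ceil_le]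
  rcases Nat.eq_zero_or_pos n with rfl | hn
  · rw [Nat.cast_zero, Real.zero_rpow (by linarith)]
  · have h2 : (1 : ℝ) ≤ n := by exact_mod_cast hn
    calc (n : ℝ) ^ (1 - η) ≤ (n : ℝ) ^ (1 : ℝ) := Real.rpow_le_rpow_of_exponent_le h2 (by linarith)
      _ = n := Real.rpow_one _

theorem words_of_incl {κ₁ κ₂ : Kind} {η : ℝ} (h1 : η < 1) (h : LinIncl κ₂ κ₁) :
    WHyp κ₁ κ₂ η := by
  intro S hS hsmall
  refine ⟨0, {w | w.map Prod.fst ∈ S}, fun _ _ j => j.elim0, 1, lin_map _ (h Bool inferInstance S hS),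
    fun n hn => ?_⟩
  have e0 : ∀ w : Fin n → Bool, (List.ofFn fun i => (w i, (fun j : Fin 0 => (j.elim0 : Bool)))) ∈
      {w : List (Bool × (Fin 0 → Bool)) | w.map Prod.fst ∈ S} ↔ List.ofFn w ∈ S := by
    intro w
    show List.map Prod.fst _ ∈ S ↔ _
    rw [List.map_ofFn]
    rfl
  have e1 : {w : Fin n → Bool | List.ofFn w ∈ S ∧
      (List.ofFn fun i => (w i, (fun j : Fin 0 => (j.elim0 : Bool)))) ∈
      {w : List (Bool × (Fin 0 → Bool)) | w.map Prod.fst ∈ S}} = {w | List.ofFn w ∈ S} := by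
    ext w
    exact ⟨fun h => h.1, fun h => ⟨h, (e0 w).mpr h⟩⟩
  have e2 : {w : Fin n → Bool |
      (List.ofFn fun i => (w i, (fun j : Fin 0 => (j.elim0 : Bool)))) ∈
      {w : List (Bool × (Fin 0 → Bool)) | w.map Prod.fst ∈ S}} = {w | List.ofFn w ∈ S} := by
    ext w
    exact e0 w
  rw [e1, e2]
  obtain ⟨hpos, hle⟩ := hsmall n
  set c := {w : Fin n → Bool | List.ofFn w ∈ S}.ncard
  have hc : (0 : ℝ) < c := by exact_mod_cast hpos
  have h2n : (0 : ℝ) < 2 ^ n := by positivity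
  have ht : (1 : ℝ) ≤ (n : ℝ) ^ (1 - η) := by
    have h2 : (1 : ℝ) ≤ n := by exact_mod_cast hn
    exact Real.one_le_rpow h2 (by linarith)
  have h3 : (2 : ℝ) ^ (-(n : ℝ) ^ (1 - η)) ≤ 1 / 2 := by
    calc (2 : ℝ) ^ (-(n : ℝ) ^ (1 - η)) ≤ 2 ^ (-1 : ℝ) :=
          Real.rpow_le_rpow_of_exponent_le (by norm_num) (by linarith)
      _ = 1 / 2 := by rw [Real.rpow_neg_one]; norm_num
  have h4 : (c : ℝ) / 2 ^ n ≤ 2 ^ (-(n : ℝ) ^ (1 - η)) := by
    rw [div_le_iff₀ h2n]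
    refine hle.trans (le_of_eq ?_)
    rw [← Real.rpow_natCast 2 n, ← Real.rpow_add (by norm_num)]
    congr 1
    ring
  rw [div_self hc.ne']
  refine le_trans ?_ (le_abs_self _)
  linarith

theorem incl_iff_pr {κ₁ κ₂ : Kind} (h₁ : κ₁.det = true ∨ κ₁.time = false)
    (h₂ : κ₂.det = true ∨ κ₂.time = false) {η : ℝ} (h0 : 0 < η) (h1 : η < 1) :
    LinIncl κ₂ κ₁ ↔ WHyp κ₁ κ₂ η := by
  constructor
  · exact words_of_incl h1
  · intro h Δ _ L hL
    obtain ⟨m, hm⟩ := exists_nat_gt (2 / η)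
    have hm2 : 2 < ((m + 3 : ℕ) : ℝ) * η := by
      have := (div_lt_iff₀ h0).mp hm
      push_cast
      nlinarith
    exact (lin_iff h₁).mpr (mainN (locChk h₂) (J := m + 3) (by omega)
      (fun c => ceil_rpow_le_two h1 (by omega) hm2 c) (ceil_rpow_le_self h0 h1)
      (prl_of_words h₁ h0 h1 h) _ (lin_pr h₂ hL))

end PRS84
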